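import Pool.Agent.H26.AVS.WLL6

/-!
# AVS, module WLL: the weighted lower counting inequality for one curve
-/

set_option autoImplicit false
set_option linter.unusedSectionVars false

namespace Pool.AVS

open Polynomial Matrix Pool.AVR

namespace WLL

theorem tau_congr {K : Type} [Field K] (a b c : K) (p q : K[X]) (h : cub a b c ∣ p - q) :
    tau a b c p = tau a b c q := by
  unfold tau
  rw [Polynomial.modByMonic_eq_of_dvd_sub (cub_monic a b c) h]

theorem repH_change {K : Type} [Field K] (a b c : K) (h h₀ s : K[X])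
    (G B : Matrix (Fin 3) (Fin 3) K) (hs : cub a b c ∣ h - h₀ * s ^ 2)
    (hR : RepH a b c h G B) : RepH a b c h₀ G B := by
  obtain ⟨e, h1, h2⟩ := hR
  refine ⟨fun i => e i * s, fun i j => ?_, fun i j => ?_⟩
  · rw [← h1]
    refine (tau_congr _ _ _ _ _ ?_).symm
    have : e i * e j * h - e i * s * (e j * s) * h₀ = e i * e j * (h - h₀ * s ^ 2) := by ring
    rw [this]
    exact Dvd.dvd.mul_left hs _
  · rw [← h2]
    refine (tau_congr _ _ _ _ _ ?_).symm
    have : X * (e i * e j * h) - X * (e i * s * (e j * s) * h₀) =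
        X * (e i * e j) * (h - h₀ * s ^ 2) := by ring
    rw [this]
    exact Dvd.dvd.mul_left hs _

theorem two_ne {F : Type} [Field F] (h2 : (2 : F) ≠ 0) : (2 : RatFunc F) ≠ 0 := by
  rw [← map_ofNat (algebraMap F (RatFunc F))]
  simpa using h2

theorem triv_of {F : Type} [Field F] (B : Matrix (Fin 3) (Fin 3) F[X]) (z : Fin 3 → RatFunc F)
    (hz : z ≠ 0) (h1 : bil (AA (RatFunc F)) z z = 0)
    (h2 : bil (B.map (algebraMap F[X] (RatFunc F))) z z = 0) : Triv B := by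
  obtain ⟨b, hb⟩ := IsLocalization.exist_integer_multiples_of_finite
    (nonZeroDivisors F[X]) (S := RatFunc F) z
  choose y hy using hb
  have hb0 : algebraMap F[X] (RatFunc F) b ≠ 0 := by
    simp
  have hyz : (fun i => algebraMap F[X] (RatFunc F) (y i)) =
      algebraMap F[X] (RatFunc F) b • z := by
    funext i
    rw [hy i]
    rw [Pi.smul_apply, smul_eq_mul, Algebra.smul_def]
  have hinj := RatFunc.algebraMap_injective F
  refine ⟨y, ?_, ?_, ?_⟩
  · intro h0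
    apply hz
    have : algebraMap F[X] (RatFunc F) b • z = 0 := by
      rw [← hyz, h0]
      funext i
      simp
    exact (smul_eq_zero.1 this).resolve_left hb0
  · apply hinj
    rw [← bil_map, AA_map, hyz, bil_smul_smul, h1, mul_zero, map_zero]
  · apply hinj
    rw [← bil_map, hyz, bil_smul_smul, h2, mul_zero, map_zero]

theorem charpoly_iff (hCHI : CHIStmt) {F : Type} [Field F] (B : Matrix (Fin 3) (Fin 3) F[X])
    (hB : Bᵀ = B) (f : F[X] × F[X] × F[X]) : (AA F[X] * B).charpoly = cubP f ↔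
      (ia B = f.1 ∧ ib B = f.2.1 ∧ ic B = f.2.2) :=
  (hCHI F[X] B hB).2 _ _ _

theorem cubP_map {F : Type} [Field F] (f : F[X] × F[X] × F[X]) :
    (cubP f).map (algebraMap F[X] (RatFunc F)) = cubK f := by
  unfold cubP cubK
  rw [cub_map]

/-- The Selmer group is finite. -/
theorem sel_fin (hWUN : WUNStmt) (hSTAB : STABStmt) {F : Type} [Field F] [Finite F]
    (h2 : (2 : F) ≠ 0) (n : ℕ) (f : F[X] × F[X] × F[X]) (hf : f ∈ Fam F n)
    (hirr : Irreducible (cubK f)) (hd : disc f.1 f.2.1 f.2.2 ≠ 0) : (Sel f).Finite := by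
  refine (hWUN F h2 n 1 f ⟨hf, hd⟩ ?_).1
  intro B hB hchar
  have hsub : {g : Matrix (Fin 3) (Fin 3) F[X] | gᵀ * AA F[X] * g = AA F[X] ∧ gᵀ * B * g = B ∧
        g.det = 1} ⊆ {1} := by
    rintro g ⟨h3, h4, h5⟩
    have hK : g.map (algebraMap F[X] (RatFunc F)) = 1 := by
      refine hSTAB (RatFunc F) (two_ne h2) (B.map (algebraMap F[X] (RatFunc F))) _
        (sym_map _ _ hB) ?_ ?_ ?_ ?_
      · have : AA (RatFunc F) * B.map (algebraMap F[X] (RatFunc F)) =
            (AA F[X] * B).map (algebraMap F[X] (RatFunc F)) := by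
          rw [map_mul', AA_map]
        rw [this, Matrix.charpoly_map, hchar, cubP_map]
        exact hirr
      · rw [← AA_map (algebraMap F[X] (RatFunc F)), ← Matrix.transpose_map, ← map_mul',
          ← map_mul', h3]
      · rw [← Matrix.transpose_map, ← map_mul', ← map_mul', h4]
      · have := congrArg (algebraMap F[X] (RatFunc F)) h5
        rw [RingHom.map_det, map_one] at this
        exact this
    have : g = 1 := by
      apply map_inj
      rw [hK, Matrix.map_one _ (map_zero _) (map_one _)]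
    exact this
  refine ⟨(Set.finite_singleton _).subset hsub, ?_⟩
  calc _ ≤ ({1} : Set (Matrix (Fin 3) (Fin 3) F[X])).ncard :=
        Set.ncard_le_ncard hsub (Set.finite_singleton _)
    _ = 1 := Set.ncard_singleton _

theorem unit_of_coprime {F : Type} [Field F] (f : F[X] × F[X] × F[X]) (h : (RatFunc F)[X])
    (hc : IsCoprime h (cubK f)) : ∃ u : (Alg f)ˣ, (u : Alg f) = AdjoinRoot.mk (cubK f) h := by
  obtain ⟨a, b, hab⟩ := hc
  have : AdjoinRoot.mk (cubK f) h * AdjoinRoot.mk (cubK f) a = 1 := by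
    rw [← map_mul, ← map_one (AdjoinRoot.mk (cubK f)), ← hab, map_add, map_mul, map_mul, map_mul,
      AdjoinRoot.mk_self]
    ring
  exact ⟨Units.mkOfMulEqOne _ _ this, rfl⟩

theorem wt_ne {F : Type} [Field F] (P : F[X]) (N : ℕ) (B : Matrix (Fin 3) (Fin 3) F[X])
    (h : wt P N B ≠ 0) : (SmF (B.map (AdjoinRoot.mk P))).Nonempty := by
  by_contra hc
  rw [Set.not_nonempty_iff_eq_empty] at hc
  apply h
  unfold wt
  rw [hc, Set.ncard_empty, Nat.cast_zero, zero_div]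

/-- The class of a matrix. -/
theorem class_exists (hEXH : EXHStmt) (hNGH : NGHStmt) (hSEH : SEHStmt) (hHSM : HSMStmt)
    (hSOL : SOLStmt) (hLDE : LDEStmt) (hTRC : TRCStmt) (hRIP : RIPStmt) (hRII : RIIStmt)
    (hPOL : POLStmt) (hCLE : CLEStmt) {F : Type} [Field F] [Finite F] (h2 : (2 : F) ≠ 0)
    (n N : ℕ) (S : Finset F[X]) (f : F[X] × F[X] × F[X])
    (hsep : (cubK f).Separable)
    (hd2 : ∀ P : F[X], P.Monic → Irreducible P → P ∉ S → ¬ P ^ 2 ∣ disc f.1 f.2.1 f.2.2)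
    (m : ℕ) (B : Matrix (Fin 3) (Fin 3) F[X]) (hm : m ≤ n) (hBd : Bd n m B)
    (hia : ia B = f.1) (hib : ib B = f.2.1) (hic : ic B = f.2.2) (hT : ¬ Triv B)
    (hW : WS n m S N B ≠ 0) :
    ∃ (h : (RatFunc F)[X]) (u : (Alg f)ˣ), (u : Alg f) = AdjoinRoot.mk (cubK f) h ∧
      RepH (kf f).1 (kf f).2.1 (kf f).2.2 h (AA (RatFunc F))
        (B.map (algebraMap F[X] (RatFunc F))) ∧
      (QuotientGroup.mk u : (Alg f)ˣ ⧸ Sq f) ∈ Sel f \ {1} := by
  have hBs : Bᵀ = B := hBd.1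
  have hex := hEXH (RatFunc F) (B.map (algebraMap F[X] (RatFunc F))) (sym_map _ _ hBs)
  rw [(inv_map _ _).1, (inv_map _ _).2.1, (inv_map _ _).2.2, hia, hib, hic] at hex
  obtain ⟨h, hcop, hR⟩ := hex hsep
  obtain ⟨u, hu⟩ := unit_of_coprime f h hcop
  have hsq : IsSquare (Algebra.norm (RatFunc F) (AdjoinRoot.mk (cubK f) h)) :=
    ((hNGH (RatFunc F) _ _ _ h).2.2 _ hR).2
  refine ⟨h, u, hu, hR, ?_, ?_⟩
  · refine (hSEH F h2 f).2.1 h u hu hsq ?_ ?_
    · intro P hPm hP L iL O ι hc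
      refine solv_fin hHSM hSOL hRIP hPOL P hPm hP L O ι hc f hsep B hBs h hR ?_
      by_cases hPS : P ∈ S
      · unfold WS at hW
        exact wt_ne P N B (Finset.prod_ne_zero_iff.1 (left_ne_zero_of_mul hW) P hPS)
      · refine (hLDE F h2 P hPm hP).2.1 B hBs ?_
        unfold dB
        rw [hia, hib, hic]
        exact hd2 P hPm hP hPS
    · intro L iL O ι hc
      refine solv_inf hHSM hSOL hRII L O ι hc f hsep n m hm B hBd h hR ?_
      unfold WS at hW
      exact wt_ne X N _ (right_ne_zero_of_mul hW)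
  · intro h1
    have h3 : (QuotientGroup.mk u : (Alg f)ˣ ⧸ Sq f) = QuotientGroup.mk 1 := h1
    obtain ⟨s, hs⟩ := (hCLE F f h 1 u 1 hu (by simp)).1 h3
    rw [one_mul] at hs
    obtain ⟨z, hz, h4, h5⟩ := (hTRC (RatFunc F) (two_ne h2) _ _ _ h _ hsep hR).1 ⟨s, hs⟩
    exact hT (triv_of B z hz h4 h5)

end WLL

open WLL in
open Classical in
/-- The module WLL. -/
theorem wll_thm (hEXH : EXHStmt) (hNGH : NGHStmt) (hSEH : SEHStmt) (hHSM : HSMStmt)
    (hSOL : SOLStmt) (hLDE : LDEStmt) (hTRC : TRCStmt) (hBSH : BSHStmt) (hUNQ : UNQStmt)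
    (hMUQ : MUQStmt) (hLLG : LLGStmt) (hRIP : RIPStmt) (hRII : RIIStmt) (hBIN : BINStmt)
    (hPOL : POLStmt) (hSTAB : STABStmt) (hCPP : CPPStmt) (hCPI : CPIStmt) (hCHI : CHIStmt)
    (hCLE : CLEStmt) (hWUN : WUNStmt) (hGRE : GREStmt) (hCNB : CNBStmt) : WLLStmt := by
  intro F _ _ h2 n N S f hf hN hS hdS hdi hd2
  obtain ⟨hfn, hirr, hsep⟩ := hf
  have hd : disc f.1 f.2.1 f.2.2 ≠ 0 := by
    intro h0
    by_cases hX : (X : F[X]) ∈ S
    · exact hdS X hX (h0 ▸ dvd_zero _)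
    · exact hd2 X monic_X irreducible_X hX (h0 ▸ dvd_zero _)
  have hSf := sel_fin hWUN hSTAB h2 n f hfn hirr hd
  have hSf' : (Sel f \ {1}).Finite := hSf.subset Set.sdiff_subset
  let A : ℕ → Set (Matrix (Fin 3) (Fin 3) F[X]) := fun m =>
    {B : Matrix (Fin 3) (Fin 3) F[X] | Bd n m B ∧ (AA F[X] * B).charpoly = cubP f ∧ ¬ Triv B}
  have hA : ∀ m ∈ Finset.range (n + 1), (A m).Finite := by
    intro m hm
    rw [Finset.mem_range] at hm
    exact (hCNB F n m (by omega)).1.subset fun B hB => hB.1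
  let A' : ℕ → Finset (Matrix (Fin 3) (Fin 3) F[X]) := fun m =>
    if h : (A m).Finite then h.toFinset else ∅
  have hA' : ∀ m ∈ Finset.range (n + 1), ∀ B, B ∈ A' m ↔ B ∈ A m := by
    intro m hm B
    simp only [A', hA m hm, dif_pos, Set.Finite.mem_toFinset]
  let T : Finset (Σ _ : ℕ, Matrix (Fin 3) (Fin 3) F[X]) := (Finset.range (n + 1)).sigma A'
  let W : (Σ _ : ℕ, Matrix (Fin 3) (Fin 3) F[X]) → ℝ := fun p =>
    WS n p.1 S N p.2 / ((GG F p.1).ncard : ℝ)
  have hsum : ∑ m ∈ Finset.range (n + 1), (∑ᶠ B ∈ A m, WS n m S N B) / ((GG F m).ncard : ℝ) =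
      ∑ p ∈ T, W p := by
    simp only [T, W]
    rw [Finset.sum_sigma]
    apply Finset.sum_congr rfl
    intro m hm
    rw [finsum_mem_eq_finite_toFinset_sum _ (hA m hm), Finset.sum_div]
    apply Finset.sum_congr
    · ext B
      rw [hA' m hm, Set.Finite.mem_toFinset]
    · intro B _
      rfl
  have hTmem : ∀ p ∈ T, p.1 ≤ n ∧ Bd n p.1 p.2 ∧ (ia p.2 = f.1 ∧ ib p.2 = f.2.1 ∧
      ic p.2 = f.2.2) ∧ ¬ Triv p.2 := by
    intro p hp
    simp only [T, Finset.mem_sigma] at hp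
    obtain ⟨h3, h4⟩ := hp
    have h5 := (hA' _ h3 _).1 h4
    rw [Finset.mem_range] at h3
    exact ⟨by omega, h5.1, (charpoly_iff hCHI _ h5.1.1 f).1 h5.2.1, h5.2.2⟩
  have hclass : ∀ p ∈ T.filter (fun p => WS n p.1 S N p.2 ≠ 0),
      ∃ (h : (RatFunc F)[X]) (u : (Alg f)ˣ), (u : Alg f) = AdjoinRoot.mk (cubK f) h ∧
      RepH (kf f).1 (kf f).2.1 (kf f).2.2 h (AA (RatFunc F))
        (p.2.map (algebraMap F[X] (RatFunc F))) ∧
      (QuotientGroup.mk u : (Alg f)ˣ ⧸ Sq f) ∈ Sel f \ {1} := by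
    intro p hp
    rw [Finset.mem_filter] at hp
    obtain ⟨h3, h4, ⟨h5, h6, h7⟩, h8⟩ := hTmem p hp.1
    exact class_exists hEXH hNGH hSEH hHSM hSOL hLDE hTRC hRIP hRII hPOL hCLE h2 n N S f hsep hd2
      p.1 p.2 h3 h4 h5 h6 h7 h8 hp.2
  choose! h u hu hR hcl using hclass
  have hmaps : ∀ p ∈ T.filter (fun p => WS n p.1 S N p.2 ≠ 0),
      (QuotientGroup.mk (u p) : (Alg f)ˣ ⧸ Sq f) ∈ hSf'.toFinset := by
    intro p hp
    rw [Set.Finite.mem_toFinset]
    exact hcl p hp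
  have hfilt : ∑ p ∈ T, W p = ∑ p ∈ T.filter (fun p => WS n p.1 S N p.2 ≠ 0), W p := by
    symm
    apply Finset.sum_filter_of_ne
    intro p _ hne h0
    apply hne
    simp only [W, h0, zero_div]
  change ∑ m ∈ Finset.range (n + 1), (∑ᶠ B ∈ A m, WS n m S N B) / ((GG F m).ncard : ℝ) ≤ _
  rw [hsum, hfilt, ← Finset.sum_fiberwise_of_maps_to hmaps, Set.ncard_eq_toFinset_card _ hSf',
    Finset.card_eq_sum_ones, Nat.cast_sum]
  apply Finset.sum_le_sum
  intro ξ _
  rw [Nat.cast_one]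
  rcases (({p ∈ T.filter (fun p => WS n p.1 S N p.2 ≠ 0) |
    (QuotientGroup.mk (u p) : (Alg f)ˣ ⧸ Sq f) = ξ})).eq_empty_or_nonempty with he | ⟨p₀, hp₀⟩
  · rw [he, Finset.sum_empty]
    exact zero_le_one
  · refine class_le hCPP hCPI hRIP hRII hLLG hPOL hMUQ hGRE hUNQ hBSH hBIN h2 n N hN S hS f hfn
      hdS hdi hd2 (h p₀) _ ?_ ?_
    · intro p hp
      rw [Finset.mem_filter, Finset.mem_filter] at hp
      obtain ⟨h3, h4, h5, -⟩ := hTmem p hp.1.1
      exact ⟨h3, h4, h5⟩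
    · intro p hp
      rw [Finset.mem_filter] at hp hp₀
      have heq : (QuotientGroup.mk (u p) : (Alg f)ˣ ⧸ Sq f) = QuotientGroup.mk (u p₀) :=
        hp.2.trans hp₀.2.symm
      obtain ⟨s, hs⟩ := (hCLE F f (h p) (h p₀) (u p) (u p₀) (hu p hp.1) (hu p₀ hp₀.1)).1 heq
      exact repH_change _ _ _ _ _ s _ _ hs (hR p hp.1)

end Pool.AVS
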