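import Pool.Agent.H14.AVS.S4

/-!
# AVS, module WLL, part 1: places with residue maps, labels of pairs (lattice, smooth point)
-/

set_option autoImplicit false
set_option linter.unusedSectionVars false

namespace Pool.AVS.WLL

open Polynomial Matrix Pool.AVR Pool.AVS

/-- `I` is the range of `j : R → K`, and `ρ : R → k` is the reduction modulo `ϖ`. -/
structure Plc {K R k : Type} [Field K] [CommRing R] [CommRing k] (I : Set K) (ϖ : K)
    (j : R →+* K) (ρ : R →+* k) : Prop where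
  inj : Function.Injective j
  mem : ∀ x, x ∈ I ↔ ∃ r, j r = x
  surj : Function.Surjective ρ
  ker : ∀ r, ρ r = 0 ↔ j r / ϖ ∈ I

section

variable {K R k : Type} [Field K] [CommRing R] [CommRing k] {I : Set K} {ϖ : K}
  {j : R →+* K} {ρ : R →+* k}

theorem bil_map {A B : Type} [CommRing A] [CommRing B] (φ : A →+* B)
    (M : Matrix (Fin 3) (Fin 3) A) (u v : Fin 3 → A) :
    bil (M.map φ) (fun i => φ (u i)) (fun i => φ (v i)) = φ (bil M u v) := by
  simp [bil, dotProduct, Matrix.mulVec, Fin.sum_univ_three]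

theorem mulVec_map {A B : Type} [CommRing A] [CommRing B] (φ : A →+* B)
    (M : Matrix (Fin 3) (Fin 3) A) (u : Fin 3 → A) (i : Fin 3) :
    (M.map φ *ᵥ (fun i => φ (u i))) i = φ ((M *ᵥ u) i) := by
  simp [dotProduct, Matrix.mulVec, Fin.sum_univ_three]

theorem AA_map {A B : Type} [CommRing A] [CommRing B] (φ : A →+* B) :
    (AA A).map φ = AA B := by
  ext i j
  fin_cases i <;> fin_cases j <;> simp [AA]

theorem Plc.memj (h : Plc I ϖ j ρ) (r : R) : j r ∈ I := (h.mem _).2 ⟨r, rfl⟩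

/-- Residue points of the reduction lift to smooth points. -/
theorem smo_lift (h : Plc I ϖ j ρ) (B : Matrix (Fin 3) (Fin 3) R)
    (z : Fin 3 → R) (w : R) (hs : ((fun i => ρ (z i)), ρ w) ∈ SmF (B.map ρ)) :
    Smo I ϖ (AA K) (B.map j) (fun i => j (z i)) (j w) := by
  obtain ⟨h1, h2, h3, h4⟩ := hs
  simp only at h1 h2 h3 h4
  refine ⟨fun i => h.memj _, h.memj _, ?_, ?_, ?_, ?_⟩
  · by_contra hc
    push Not at hc
    apply h1
    funext i
    exact (h.ker _).2 (hc i)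
  · rw [← AA_map j, bil_map]
    rw [← h.ker, ← bil_map, AA_map]
    exact h2
  · rw [bil_map, ← map_pow, ← map_add, ← h.ker, map_add, ← bil_map, map_pow]
    exact h3
  · rintro ⟨hw, μ, hμ, hB⟩
    obtain ⟨m, rfl⟩ := (h.mem _).1 hμ
    apply h4
    refine ⟨(h.ker _).2 hw, ρ m, ?_⟩
    funext i
    have := hB i
    rw [← AA_map j, mulVec_map, mulVec_map, ← map_mul, ← map_sub, ← h.ker, map_sub, map_mul,
      sub_eq_zero] at this
    rw [mulVec_map, this, Pi.smul_apply, smul_eq_mul, ← mulVec_map, AA_map]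

theorem GI_lift (h : Plc I ϖ j ρ) {κ : Matrix (Fin 3) (Fin 3) K} (hκ : GI I κ) :
    ∃ κ' : Matrix (Fin 3) (Fin 3) R, IsUnit κ'.det ∧ κ'.map j = κ := by
  obtain ⟨h1, h2, h3, h4⟩ := hκ
  have : ∀ a b, ∃ r, j r = κ a b := fun a b => (h.mem _).1 (h1 a b)
  choose r hr using this
  refine ⟨Matrix.of r, ?_, ?_⟩
  · obtain ⟨s, hs⟩ := (h.mem _).1 h4
    refine IsUnit.of_mul_eq_one s (h.inj ?_)
    rw [map_mul, map_one, hs, RingHom.map_det]
    have : j.mapMatrix (Matrix.of r) = κ := by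
      ext a b
      simp [hr]
    rw [this]
    exact mul_inv_cancel₀ h2
  · ext a b
    simp [hr]

theorem UI_lift (h : Plc I ϖ j ρ) {t : K} (ht : UI I t) : ∃ t' : R, IsUnit t' ∧ j t' = t := by
  obtain ⟨h2, h3, h4⟩ := ht
  obtain ⟨r, hr⟩ := (h.mem _).1 h3
  obtain ⟨s, hs⟩ := (h.mem _).1 h4
  refine ⟨r, IsUnit.of_mul_eq_one s (h.inj ?_), hr⟩
  rw [map_mul, map_one, hs, hr]
  exact mul_inv_cancel₀ h2

/-- The equivalence of pairs (lattice, residue point). -/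
def EqvR (j : R →+* K) (ρ : R →+* k)
    (d d' : Matrix (Fin 3) (Fin 3) K × ((Fin 3 → k) × k)) : Prop :=
  ∃ κ : Matrix (Fin 3) (Fin 3) R, IsUnit κ.det ∧ d'.1 = d.1 * κ.map j ∧
    ∃ t : k, IsUnit t ∧ (κ.map ρ) *ᵥ d'.2.1 = t • d.2.1 ∧ d'.2.2 = t * d.2.2

theorem eqvR_refl (j : R →+* K) (ρ : R →+* k)
    (d : Matrix (Fin 3) (Fin 3) K × ((Fin 3 → k) × k)) : EqvR j ρ d d := by
  refine ⟨1, by simp, ?_, 1, isUnit_one, ?_, by simp⟩
  · rw [Matrix.map_one _ (map_zero _) (map_one _), mul_one]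
  · rw [Matrix.map_one _ (map_zero _) (map_one _), Matrix.one_mulVec, one_smul]

theorem eqvR_symm {j : R →+* K} {ρ : R →+* k}
    {d d' : Matrix (Fin 3) (Fin 3) K × ((Fin 3 → k) × k)} (h : EqvR j ρ d d') :
    EqvR j ρ d' d := by
  obtain ⟨κ, hu, h1, t, ht, h2, h3⟩ := h
  obtain ⟨u, rfl⟩ := ht
  have hk : κ * κ⁻¹ = 1 := Matrix.mul_nonsing_inv _ hu
  have hk' : κ⁻¹ * κ = 1 := Matrix.nonsing_inv_mul _ hu
  refine ⟨κ⁻¹, ?_, ?_, (u⁻¹ : kˣ), Units.isUnit _, ?_, ?_⟩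
  · exact (Matrix.isUnit_nonsing_inv_det _ hu)
  · rw [h1, mul_assoc, ← Matrix.map_mul, hk, Matrix.map_one _ (map_zero _) (map_one _), mul_one]
  · have : d.2.1 = ((u⁻¹ : kˣ) : k) • (κ.map ρ *ᵥ d'.2.1) := by
      rw [h2, smul_smul, Units.inv_mul, one_smul]
    rw [this, Matrix.mulVec_smul, Matrix.mulVec_mulVec, ← Matrix.map_mul, hk',
      Matrix.map_one _ (map_zero _) (map_one _), Matrix.one_mulVec]
  · rw [h3, ← mul_assoc, Units.inv_mul, one_mul]

theorem eqvR_trans {j : R →+* K} {ρ : R →+* k}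
    {d d' d'' : Matrix (Fin 3) (Fin 3) K × ((Fin 3 → k) × k)} (h : EqvR j ρ d d')
    (h' : EqvR j ρ d' d'') : EqvR j ρ d d'' := by
  obtain ⟨κ, hu, h1, t, ht, h2, h3⟩ := h
  obtain ⟨κ', hu', h1', t', ht', h2', h3'⟩ := h'
  refine ⟨κ * κ', ?_, ?_, t' * t, ht'.mul ht, ?_, ?_⟩
  · rw [Matrix.det_mul]; exact hu.mul hu'
  · rw [h1', h1, mul_assoc, ← Matrix.map_mul]
  · rw [Matrix.map_mul, ← Matrix.mulVec_mulVec, h2', Matrix.mulVec_smul, h2, smul_smul]
  · rw [h3', h3, mul_assoc]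

/-- Equivalence of lifts gives equivalence of residue points. -/
theorem eqvR_of_eqv (h : Plc I ϖ j ρ) (g g' : Matrix (Fin 3) (Fin 3) K) (z z' : Fin 3 → R)
    (w w' : R) (he : Eqv I ϖ g (fun i => j (z i)) (j w) g' (fun i => j (z' i)) (j w')) :
    EqvR j ρ (g, (fun i => ρ (z i)), ρ w) (g', (fun i => ρ (z' i)), ρ w') := by
  obtain ⟨κ, hκ, h1, t, ht, h2, h3⟩ := he
  obtain ⟨κ', hu, rfl⟩ := GI_lift h hκ
  obtain ⟨t', hut, rfl⟩ := UI_lift h ht
  refine ⟨κ', hu, h1, ρ t', hut.map ρ, ?_, ?_⟩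
  · funext i
    have := h2 i
    rw [mulVec_map, ← map_mul, ← map_sub, ← h.ker, map_sub, map_mul, sub_eq_zero] at this
    rw [mulVec_map, this, Pi.smul_apply, smul_eq_mul]
  · rw [← map_mul, ← map_sub, ← h.ker, map_sub, map_mul, sub_eq_zero] at h3
    exact h3

theorem AA_det {A : Type} [CommRing A] : (AA A).det = -1 := by
  simp [AA, Matrix.det_fin_three]

theorem Plc.gi_AA (h : Plc I ϖ j ρ) : GI I (AA K) := by
  refine ⟨fun a b => ?_, ?_, ?_, ?_⟩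
  · rw [← AA_map j]
    exact h.memj _
  · rw [AA_det]; simp
  · rw [AA_det]
    have := h.memj (-1)
    simpa using this
  · rw [AA_det]
    have := h.memj (-1)
    simpa [inv_neg] using this

/-- The labels. -/
theorem labels (h : Plc I ϖ j ρ) [Nontrivial k] (B : Matrix (Fin 3) (Fin 3) K)
    (D : Set (Matrix (Fin 3) (Fin 3) K × ((Fin 3 → k) × k))) (hf : D.Finite)
    (hD : ∀ d ∈ D, d.1.det ≠ 0 ∧ d.1ᵀ * AA K * d.1 = AA K ∧
      ∃ B' : Matrix (Fin 3) (Fin 3) R, d.1ᵀ * B * d.1 = B'.map j ∧ d.2 ∈ SmF (B'.map ρ))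
    (Q : ℕ → Prop)
    (hQ : ∀ (M : ℕ) (g : Fin M → Matrix (Fin 3) (Fin 3) K) (z : Fin M → Fin 3 → K)
      (w : Fin M → K), (∀ i, KP I ϖ B (g i) (z i) (w i)) →
      (∀ i j, i ≠ j → ¬ Eqv I ϖ (g i) (z i) (w i) (g j) (z j) (w j)) → Q M) :
    ∃ M : ℕ, Q M ∧ ∃ lab : (Matrix (Fin 3) (Fin 3) K × ((Fin 3 → k) × k)) → ℕ × k,
      (∀ d ∈ D, (lab d).1 < M ∧ (lab d).2 ≠ 0) ∧
      (∀ d ∈ D, ∀ d' ∈ D, lab d = lab d' → MI I (d.1⁻¹ * d'.1)) ∧
      (∀ d ∈ D, ∀ d' ∈ D, lab d = lab d' → d.1 = d'.1 → d = d') := by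
  classical
  let S : Setoid D := ⟨fun d d' => EqvR j ρ d.1 d'.1, fun d => eqvR_refl _ _ _,
    fun h => eqvR_symm h, fun h h' => eqvR_trans h h'⟩
  have : Finite D := hf
  have : Finite (Quotient S) := Quotient.finite S
  let e : Quotient S ≃ Fin (Nat.card (Quotient S)) := Finite.equivFin _
  let r : Fin (Nat.card (Quotient S)) → D := fun i => Quotient.out (e.symm i)
  have hinv : Function.Surjective ρ := h.surj
  let σ : k → R := Function.surjInv hinv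
  have hσ : ∀ x, ρ (σ x) = x := Function.surjInv_eq hinv
  refine ⟨Nat.card (Quotient S), ?_, ?_⟩
  · refine hQ _ (fun i => (r i).1.1) (fun i a => j (σ ((r i).1.2.1 a)))
      (fun i => j (σ ((r i).1.2.2))) ?_ ?_
    · intro i
      obtain ⟨h1, h2, B', h3, h4⟩ := hD (r i).1 (r i).2
      refine ⟨h1, ?_, ?_, ?_⟩
      · rw [h2]; exact h.gi_AA
      · rw [h3]; exact fun a b => h.memj _
      · rw [h2, h3]
        refine smo_lift h B' (fun a => σ ((r i).1.2.1 a)) (σ ((r i).1.2.2)) ?_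
        simp only [hσ]
        exact h4
    · intro i i' hne he
      apply hne
      have := eqvR_of_eqv h _ _ (fun a => σ ((r i).1.2.1 a)) (fun a => σ ((r i').1.2.1 a)) _ _ he
      simp only [hσ] at this
      have h2 : (⟦r i⟧ : Quotient S) = ⟦r i'⟧ := Quotient.sound this
      rw [Quotient.out_eq, Quotient.out_eq] at h2
      exact e.symm.injective h2
  · have hrep : ∀ d : D, EqvR j ρ (r (e ⟦d⟧)).1 d.1 := by
      intro d
      have : (⟦r (e ⟦d⟧)⟧ : Quotient S) = ⟦d⟧ := by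
        simp only [r, Equiv.symm_apply_apply, Quotient.out_eq]
      exact Quotient.exact this
    choose κ hu hg t ht hz hw using hrep
    refine ⟨fun d => if hd : d ∈ D then ((e ⟦⟨d, hd⟩⟧ : ℕ), t ⟨d, hd⟩) else (0, 0), ?_, ?_, ?_⟩
    · intro d hd
      simp only [hd, dif_pos]
      exact ⟨Fin.is_lt _, (ht _).ne_zero⟩
    · intro d hd d' hd' hl
      simp only [hd, hd', dif_pos, Prod.mk.injEq] at hl
      obtain ⟨h1, h2⟩ := hl
      have h3 : e ⟦⟨d, hd⟩⟧ = e ⟦⟨d', hd'⟩⟧ := Fin.ext h1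
      have h4 := hg ⟨d, hd⟩
      have h5 := hg ⟨d', hd'⟩
      simp only at h4 h5
      have hdet : ((r (e ⟦⟨d, hd⟩⟧)).1.1).det ≠ 0 := (hD _ (r (e ⟦⟨d, hd⟩⟧)).2).1
      rw [← h3] at h5
      have hku : IsUnit ((κ ⟨d, hd⟩).map j).det := by
        have := (hu ⟨d, hd⟩).map j
        rwa [RingHom.map_det] at this
      have key : d.1⁻¹ * d'.1 = ((κ ⟨d, hd⟩)⁻¹ * κ ⟨d', hd'⟩).map j := by
        have e1 : d.1 * ((κ ⟨d, hd⟩)⁻¹ * κ ⟨d', hd'⟩).map j = d'.1 := by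
          rw [Matrix.map_mul, ← mul_assoc, h4, h5]
          rw [mul_assoc (r (e ⟦⟨d, hd⟩⟧)).1.1, ← Matrix.map_mul, Matrix.mul_nonsing_inv _ (hu _),
            Matrix.map_one _ (map_zero _) (map_one _), mul_one]
        have hd1 : IsUnit d.1.det := isUnit_iff_ne_zero.2 (hD d hd).1
        rw [← e1, ← mul_assoc, Matrix.nonsing_inv_mul _ hd1, one_mul]
      rw [key]
      exact fun a b => h.memj _
    · intro d hd d' hd' hl hdd
      simp only [hd, hd', dif_pos, Prod.mk.injEq] at hl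
      obtain ⟨h1, h2⟩ := hl
      have h3 : e ⟦⟨d, hd⟩⟧ = e ⟦⟨d', hd'⟩⟧ := Fin.ext h1
      have h4 := hg ⟨d, hd⟩
      have h5 := hg ⟨d', hd'⟩
      simp only at h4 h5
      have hdet : IsUnit ((r (e ⟦⟨d, hd⟩⟧)).1.1).det :=
        isUnit_iff_ne_zero.2 (hD _ (r (e ⟦⟨d, hd⟩⟧)).2).1
      rw [← h3] at h5
      have hkk : κ ⟨d, hd⟩ = κ ⟨d', hd'⟩ := by
        have : (κ ⟨d, hd⟩).map j = (κ ⟨d', hd'⟩).map j := by
          have e1 : (r (e ⟦⟨d, hd⟩⟧)).1.1 * (κ ⟨d, hd⟩).map j =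
              (r (e ⟦⟨d, hd⟩⟧)).1.1 * (κ ⟨d', hd'⟩).map j := by
            rw [← h4, ← h5, hdd]
          have := congrArg (fun M => ((r (e ⟦⟨d, hd⟩⟧)).1.1)⁻¹ * M) e1
          simp only [← mul_assoc, Matrix.nonsing_inv_mul _ hdet, one_mul] at this
          exact this
        ext a b
        exact h.inj (congrFun (congrFun this a) b)
      have hz1 := hz ⟨d, hd⟩
      have hz2 := hz ⟨d', hd'⟩
      have hw1 := hw ⟨d, hd⟩
      have hw2 := hw ⟨d', hd'⟩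
      simp only at hz1 hz2 hw1 hw2
      rw [← h3, ← h2, ← hkk] at hz2
      rw [← h3, ← h2] at hw2
      have hku : IsUnit ((κ ⟨d, hd⟩).map ρ).det := by
        have := (hu ⟨d, hd⟩).map ρ
        rwa [RingHom.map_det] at this
      have hz3 : d.2.1 = d'.2.1 := by
        have e1 : (κ ⟨d, hd⟩).map ρ *ᵥ d.2.1 = (κ ⟨d, hd⟩).map ρ *ᵥ d'.2.1 := by
          rw [hz1, hz2]
        have := congrArg (fun v => ((κ ⟨d, hd⟩).map ρ)⁻¹ *ᵥ v) e1
        simp only [Matrix.mulVec_mulVec, Matrix.nonsing_inv_mul _ hku, Matrix.one_mulVec] at this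
        exact this
      have hw3 : d.2.2 = d'.2.2 := by rw [hw1, hw2]
      exact Prod.ext hdd (Prod.ext hz3 hw3)

end

end Pool.AVS.WLL
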