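import Pool.Agent.H26.AVS.WLL1

/-!
# AVS, module WLL, part 2: the places of `F(t)`, local solubility, local labels
-/

set_option autoImplicit false
set_option linter.unusedSectionVars false

namespace Pool.AVS.WLL

open Polynomial Matrix Pool.AVR Pool.AVS

theorem unit_iff {L : Type} [Field L] (O : ValuationSubring L) (x : O) :
    IsUnit x ↔ (x : L) ≠ 0 ∧ (x : L)⁻¹ ∈ O := by
  constructor
  · rintro ⟨u, rfl⟩
    have h1 : ((u : O) : L) * ((u⁻¹ : Oˣ) : O) = 1 := by
      have : ((u : O) * ((u⁻¹ : Oˣ) : O)) = 1 := u.mul_inv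
      exact_mod_cast congrArg (fun y : O => (y : L)) this
    have h0 : ((u : O) : L) ≠ 0 := left_ne_zero_of_mul_eq_one h1
    refine ⟨h0, ?_⟩
    rw [← eq_inv_of_mul_eq_one_right h1]
    exact SetLike.coe_mem _
  · rintro ⟨h0, h1⟩
    refine IsUnit.of_mul_eq_one ⟨(x : L)⁻¹, h1⟩ ?_
    apply Subtype.ext
    simp [h0]

section

variable {F : Type} [Field F] {I : Set (RatFunc F)} {ϖ : RatFunc F} {L : Type} [Field L]
  {O : ValuationSubring L} {ι : RatFunc F →+* L}

/-- The residue map over the completion. -/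
noncomputable def rL {k : Type} [CommRing k] (O : ValuationSubring L) (e : ON O 1 ≃+* k) :
    O →+* k := (e : ON O 1 →+* k).comp (Ideal.Quotient.mk _)

/-- The restriction of `ι`. -/
noncomputable def rI (O : ValuationSubring L) (ι : RatFunc F →+* L) : (O.comap ι) →+* O :=
  (ι.comp (O.comap ι).subtype).codRestrict O (fun x => x.2)

theorem rI_coe (x : O.comap ι) : ((rI O ι x : O) : L) = ι x := rfl

theorem plcL (hc : IsComp F I ϖ L O ι) {k : Type} [CommRing k] (e : ON O 1 ≃+* k) :
    Plc (O : Set L) (ι ϖ) O.subtype (rL O e) := by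
  refine ⟨Subtype.val_injective, ?_, ?_, ?_⟩
  · intro x
    exact ⟨fun hx => ⟨⟨x, hx⟩, rfl⟩, by rintro ⟨r, rfl⟩; exact r.2⟩
  · exact e.surjective.comp Ideal.Quotient.mk_surjective
  · intro r
    have h1 : rL O e r = 0 ↔ r ∈ IsLocalRing.maximalIdeal O := by
      unfold rL
      rw [RingHom.comp_apply]
      constructor
      · intro h
        have : (Ideal.Quotient.mk ((IsLocalRing.maximalIdeal O) ^ 1)) r = 0 := by
          apply e.injective
          rw [map_zero]
          exact h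
        rw [Ideal.Quotient.eq_zero_iff_mem, pow_one] at this
        exact this
      · intro h
        have : (Ideal.Quotient.mk ((IsLocalRing.maximalIdeal O) ^ 1)) r = 0 := by
          rw [Ideal.Quotient.eq_zero_iff_mem, pow_one]
          exact h
        rw [this, map_zero]
    rw [h1, IsLocalRing.mem_maximalIdeal, mem_nonunits_iff, unit_iff]
    by_cases h0 : (r : L) = 0
    · simp [h0]
    · have := hc.loc.unif (r : L) r.2 h0
      simp only [ne_eq, h0, not_false_eq_true, true_and]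
      exact this

theorem plcK (hc : IsComp F I ϖ L O ι) {k : Type} [CommRing k] (e : ON O 1 ≃+* k) :
    Plc I ϖ (O.comap ι).subtype ((rL O e).comp (rI O ι)) := by
  have hL := plcL hc e
  refine ⟨Subtype.val_injective, ?_, ?_, ?_⟩
  · intro x
    rw [← hc.mem]
    exact ⟨fun hx => ⟨⟨x, hx⟩, rfl⟩, by rintro ⟨r, rfl⟩; exact r.2⟩
  · intro y
    obtain ⟨r, rfl⟩ := hL.surj y
    obtain ⟨x, hx⟩ := hc.dense (r : L) 1
    rw [pow_one] at hx
    have hp : ι ϖ ≠ 0 := hc.loc.pi_ne
    have hxO : ι x ∈ O := by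
      have h1 : ι x = r - ((r - ι x) / ι ϖ) * ι ϖ := by
        rw [div_mul_cancel₀ _ hp]; ring
      rw [h1]
      exact O.toSubring.sub_mem r.2 (O.toSubring.mul_mem hx hc.loc.pi_mem)
    refine ⟨⟨x, hxO⟩, ?_⟩
    rw [RingHom.comp_apply]
    have : rL O e (r - rI O ι ⟨x, hxO⟩) = 0 := by
      rw [hL.ker]
      exact hx
    rw [map_sub, sub_eq_zero] at this
    exact this.symm
  · intro r
    rw [RingHom.comp_apply, hL.ker, ← hc.mem, map_div₀]
    exact Iff.rfl

theorem nE_equiv {R R' : Type} [CommRing R] [CommRing R'] (e : R ≃+* R') (a b c : R) :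
    nE R' (e a) (e b) (e c) = nE R a b c := by
  unfold nE
  have : {p : R' × R' | p.2 ^ 2 = p.1 ^ 3 + e a * p.1 ^ 2 + e b * p.1 + e c} =
      (fun p : R × R => (e p.1, e p.2)) '' {p : R × R | p.2 ^ 2 = p.1 ^ 3 + a * p.1 ^ 2 + b * p.1 + c} := by
    ext p
    simp only [Set.mem_ofPred_eq, Set.mem_image, Prod.exists]
    constructor
    · intro h
      refine ⟨e.symm p.1, e.symm p.2, ?_, by simp⟩
      apply e.injective
      simp only [map_pow, map_add, map_mul, RingEquiv.apply_symm_apply]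
      exact h
    · rintro ⟨x, y, h, rfl⟩
      simp only [← map_pow, ← map_mul, ← map_add, h]
  rw [this]
  apply Set.ncard_image_of_injective
  intro p q h
  simp only [Prod.mk.injEq] at h
  exact Prod.ext (e.injective h.1) (e.injective h.2)

theorem card_adj [Finite F] (M : F[X]) (hM : M.Monic) :
    Nat.card (AdjoinRoot M) = Nat.card F ^ M.natDegree := by
  have : Module.Finite F (AdjoinRoot M) := (AdjoinRoot.powerBasis' hM).finite
  rw [Module.natCard_eq_pow_finrank (K := F), (AdjoinRoot.powerBasis' hM).finrank,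
    AdjoinRoot.powerBasis'_dim]

theorem disc_map {R R' : Type} [CommRing R] [CommRing R'] (φ : R →+* R') (a b c : R) :
    φ (disc a b c) = disc (φ a) (φ b) (φ c) := by
  simp only [disc, map_sub, map_add, map_mul, map_pow, map_ofNat]

theorem cub_map {R R' : Type} [CommRing R] [CommRing R'] (φ : R →+* R') (a b c : R) :
    (cub a b c).map φ = cub (φ a) (φ b) (φ c) := by
  simp [cub]

theorem cub_monic {R : Type} [CommRing R] (a b c : R) : (cub a b c).Monic := by
  unfold cub
  monicity!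

theorem tau_map {K L : Type} [Field K] [Field L] (φ : K →+* L) (a b c : K) (p : K[X]) :
    tau (φ a) (φ b) (φ c) (p.map φ) = φ (tau a b c p) := by
  unfold tau
  rw [← cub_map, ← Polynomial.map_modByMonic _ (cub_monic a b c), Polynomial.coeff_map]

theorem repH_map {K L : Type} [Field K] [Field L] (φ : K →+* L) (a b c : K) (h : K[X])
    (G B : Matrix (Fin 3) (Fin 3) K) (hR : RepH a b c h G B) :
    RepH (φ a) (φ b) (φ c) (h.map φ) (G.map φ) (B.map φ) := by
  obtain ⟨e, h1, h2⟩ := hR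
  refine ⟨fun i => (e i).map φ, fun i j => ?_, fun i j => ?_⟩
  · rw [← Polynomial.map_mul, ← Polynomial.map_mul, tau_map, h1]; rfl
  · have : (X : L[X]) = (X : K[X]).map φ := by simp
    rw [this, ← Polynomial.map_mul, ← Polynomial.map_mul, ← Polynomial.map_mul, tau_map, h2]; rfl

theorem bil_smul_smul {K : Type} [CommRing K] (B : Matrix (Fin 3) (Fin 3) K) (t : K)
    (z : Fin 3 → K) : bil B (t • z) (t • z) = t ^ 2 * bil B z z := by
  simp [bil, dotProduct, Matrix.mulVec, Fin.sum_univ_three]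
  ring

theorem bil_conj {K : Type} [CommRing K] (B g : Matrix (Fin 3) (Fin 3) K)
    (z : Fin 3 → K) : bil (gᵀ * B * g) z z = bil B (g *ᵥ z) (g *ᵥ z) := by
  unfold bil
  rw [mul_assoc, ← Matrix.mulVec_mulVec, ← Matrix.mulVec_mulVec, Matrix.dotProduct_mulVec,
    Matrix.vecMul_transpose]

theorem bil_smul_left {K : Type} [CommRing K] (B : Matrix (Fin 3) (Fin 3) K) (t : K)
    (z : Fin 3 → K) : bil (t • B) z z = t * bil B z z := by
  simp [bil, dotProduct, Matrix.mulVec, Fin.sum_univ_three]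
  ring

/-- A nonempty reduction gives a point of the curve over the completion. -/
theorem solv (hHSM : HSMStmt) (hSOL : SOLStmt) (hc : IsComp F I ϖ L O ι) {k : Type}
    [CommRing k] (e : ON O 1 ≃+* k) (a b c : L) (h : L[X]) (B : Matrix (Fin 3) (Fin 3) L)
    (hsep : (cub a b c).Separable) (hR : RepH a b c h (AA L) B)
    (B' : Matrix (Fin 3) (Fin 3) O) (hBs : B'ᵀ = B') (ν μ : L) (hν : ν ≠ 0) (hμ : μ ≠ 0)
    (hB' : ∀ s : L, bil (B'.map O.subtype) (zz 1 s) (zz 1 s) * ν ^ 2 =
      bil B (zz 1 (μ * s)) (zz 1 (μ * s)))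
    (hs : (SmF (B'.map (rL O e))).Nonempty) : LocSol a b c h := by
  have h2 : (2 : L) ≠ 0 := hc.loc.two.1
  obtain ⟨Z, hZ, hZ'⟩ := hSOL L h2 a b c h B hsep hR
  obtain ⟨⟨s1, s2⟩, hs⟩ := hs
  have hL := plcL hc e
  choose z hz using fun i => hL.surj (s1 i)
  obtain ⟨w, hw⟩ := hL.surj s2
  have hsm : Smo (O : Set L) (ι ϖ) (AA L) (B'.map O.subtype) (fun i => O.subtype (z i))
      (O.subtype w) := by
    apply smo_lift hL B' z w
    simp only [hz, hw]
    exact hs
  have hBsy : (B'.map O.subtype)ᵀ = B'.map O.subtype := by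
    rw [← Matrix.transpose_map, hBs]
  obtain ⟨s, t, w', h3, h4, h5, h6, -⟩ := hHSM L O (ι ϖ) hc.loc (B'.map O.subtype) _ _ hBsy
    (fun i j => (B' i j).2) hsm ((fun x => μ⁻¹ * x) '' Z) (hZ.image _)
  refine hZ' (μ * s) (w' / t * ν) ?_ ?_ ?_
  · intro hmem
    apply h3
    refine ⟨μ * s, hmem, ?_⟩
    simp only
    rw [← mul_assoc, inv_mul_cancel₀ hμ, one_mul]
  · exact mul_ne_zero (div_ne_zero h5 h4) hν
  · have h7 := h6.2.2
    rw [bil_smul_smul] at h7
    rw [← hB', mul_pow, div_pow, h7]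
    field_simp

end

end Pool.AVS.WLL
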