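import Pool.Agent.H26.AVS.WLL2

/-!
# AVS, module WLL, part 3: labels at the finite places and at infinity
-/

set_option autoImplicit false
set_option linter.unusedSectionVars false

namespace Pool.AVS.WLL

open Polynomial Matrix Pool.AVR Pool.AVS

section

variable {F : Type} [Field F]

theorem e_one {P : F[X]} {L : Type} [Field L] {O : ValuationSubring L}
    {G : F[X] → L} {red : F[X] → F[X]}
    (h : ∃ e : ON O 1 ≃+* AdjoinRoot (P ^ 1), ∀ (p : F[X]) (hp : G p ∈ O),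
      e (Ideal.Quotient.mk _ ⟨G p, hp⟩) = AdjoinRoot.mk (P ^ 1) (red p)) :
    ∃ e : ON O 1 ≃+* AdjoinRoot P, ∀ (p : F[X]) (hp : G p ∈ O),
      e (Ideal.Quotient.mk _ ⟨G p, hp⟩) = AdjoinRoot.mk P (red p) := by
  have h1 : P ^ 1 = P := pow_one P
  rw [h1] at h
  exact h

theorem e_one' {P : F[X]} {L : Type} [Field L] {O : ValuationSubring L}
    {G : ℕ → F[X] → L} {C : ℕ → F[X] → Prop} {red : ℕ → F[X] → F[X]}
    (h : ∃ e : ON O 1 ≃+* AdjoinRoot (P ^ 1), ∀ (M : ℕ) (p : F[X]), C M p → ∀ (hp : G M p ∈ O),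
      e (Ideal.Quotient.mk _ ⟨G M p, hp⟩) = AdjoinRoot.mk (P ^ 1) (red M p)) :
    ∃ e : ON O 1 ≃+* AdjoinRoot P, ∀ (M : ℕ) (p : F[X]), C M p → ∀ (hp : G M p ∈ O),
      e (Ideal.Quotient.mk _ ⟨G M p, hp⟩) = AdjoinRoot.mk P (red M p) := by
  have h1 : P ^ 1 = P := pow_one P
  rw [h1] at h
  exact h

/-- The existence of labels, generic form. -/
theorem lab_gen (hLLG : LLGStmt) {I : Set (RatFunc F)} {ϖ : RatFunc F} {L : Type} [Field L]
    {O : ValuationSubring L} {ι : RatFunc F →+* L} (hc : IsComp F I ϖ L O ι)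
    {k RN : Type} [CommRing k] [Nontrivial k] [CommRing RN] (N : ℕ) (hN : 1 ≤ N)
    (e : ON O 1 ≃+* k) (eN : ON O N ≃+* RN) (a b c : O)
    (hdisc : disc (eN (Ideal.Quotient.mk _ a)) (eN (Ideal.Quotient.mk _ b))
      (eN (Ideal.Quotient.mk _ c)) ≠ 0)
    (hk : kap O = Nat.card k) (hk0 : Nat.card k ≠ 0) (hRN : Nat.card RN = Nat.card k ^ N)
    (B : Matrix (Fin 3) (Fin 3) (RatFunc F)) (hs : Bᵀ = B)
    (hia : ι (ia B) = a) (hib : ι (ib B) = b) (hic : ι (ic B) = c)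
    (D : Set (Matrix (Fin 3) (Fin 3) (RatFunc F) × ((Fin 3 → k) × k))) (hf : D.Finite)
    (hD : ∀ d ∈ D, d.1.det ≠ 0 ∧ d.1ᵀ * AA (RatFunc F) * d.1 = AA (RatFunc F) ∧
      ∃ B' : Matrix (Fin 3) (Fin 3) (O.comap ι), d.1ᵀ * B * d.1 = B'.map (O.comap ι).subtype ∧
        d.2 ∈ SmF (B'.map ((rL O e).comp (rI O ι)))) :
    ∃ M : ℕ, (M : ℝ) ≤ (Nat.card k : ℝ) * nE RN (eN (Ideal.Quotient.mk _ a))
        (eN (Ideal.Quotient.mk _ b)) (eN (Ideal.Quotient.mk _ c)) / Nat.card RN + 1 ∧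
      ∃ lab : (Matrix (Fin 3) (Fin 3) (RatFunc F) × ((Fin 3 → k) × k)) → ℕ × k,
      (∀ d ∈ D, (lab d).1 < M ∧ (lab d).2 ≠ 0) ∧
      (∀ d ∈ D, ∀ d' ∈ D, lab d = lab d' → MI I (d.1⁻¹ * d'.1)) ∧
      (∀ d ∈ D, ∀ d' ∈ D, lab d = lab d' → d.1 = d'.1 → d = d') := by
  have hdisc' : disc a b c ∉ (IsLocalRing.maximalIdeal O) ^ N := by
    intro hmem
    apply hdisc
    have h1 := disc_map (eN : ON O N →+* RN) (Ideal.Quotient.mk _ a) (Ideal.Quotient.mk _ b)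
      (Ideal.Quotient.mk _ c)
    rw [← disc_map (Ideal.Quotient.mk _), Ideal.Quotient.eq_zero_iff_mem.2 hmem, map_zero] at h1
    exact h1.symm
  have key := labels (plcK hc e) B D hf hD
    (fun M => M * kap O ^ (N - 1) ≤
        nE (ON O N) (Ideal.Quotient.mk _ a) (Ideal.Quotient.mk _ b) (Ideal.Quotient.mk _ c) +
          kap O ^ (N - 1))
    (fun M g z w h1 h2 => hLLG F I ϖ L O ι hc N a b c hdisc' B hs hia hib hic M g z w h1 h2)
  obtain ⟨M, hM, lab, h1, h2, h3⟩ := key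
  refine ⟨M, ?_, lab, h1, h2, h3⟩
  rw [nE_equiv, hRN]
  set E := nE (ON O N) (Ideal.Quotient.mk _ a) (Ideal.Quotient.mk _ b) (Ideal.Quotient.mk _ c)
  rw [hk] at hM
  have hM' : (M : ℝ) * (Nat.card k : ℝ) ^ (N - 1) ≤ E + (Nat.card k : ℝ) ^ (N - 1) := by
    exact_mod_cast hM
  have hkpos : (0 : ℝ) < Nat.card k := by
    exact_mod_cast Nat.pos_of_ne_zero hk0
  have hpow : ((Nat.card k ^ N : ℕ) : ℝ) = (Nat.card k : ℝ) ^ (N - 1) * Nat.card k := by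
    rw [Nat.cast_pow, ← pow_succ]
    congr 1
    omega
  rw [hpow]
  have hpp : (0 : ℝ) < (Nat.card k : ℝ) ^ (N - 1) := by positivity
  have : (Nat.card k : ℝ) * E / ((Nat.card k : ℝ) ^ (N - 1) * Nat.card k) + 1 =
      (E + (Nat.card k : ℝ) ^ (N - 1)) / (Nat.card k : ℝ) ^ (N - 1) := by
    field_simp
  rw [this, le_div_iff₀ hpp]
  exact hM'

theorem sym_map {A B : Type} (φ : A → B) (M : Matrix (Fin 3) (Fin 3) A) (h : Mᵀ = M) :
    (M.map φ)ᵀ = M.map φ := by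
  rw [← Matrix.transpose_map, h]

theorem inv_map {A B : Type} [CommRing A] [CommRing B] (φ : A →+* B)
    (M : Matrix (Fin 3) (Fin 3) A) :
    ia (M.map φ) = φ (ia M) ∧ ib (M.map φ) = φ (ib M) ∧ ic (M.map φ) = φ (ic M) := by
  refine ⟨?_, ?_, ?_⟩
  · simp only [ia, Matrix.map_apply, map_add, map_mul, map_neg, map_ofNat]
  · simp only [ib, Matrix.map_apply, map_sub, map_add, map_mul, map_pow, map_ofNat]
  · simp only [ic]
    rw [RingHom.map_det]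
    rfl

/-- The prime spectrum point of an irreducible polynomial. -/
theorem exists_spec (P : F[X]) (hP : Irreducible P) :
    ∃ v : IsDedekindDomain.HeightOneSpectrum F[X], v.asIdeal = Ideal.span {P} := by
  refine ⟨⟨Ideal.span {P}, ?_, ?_⟩, rfl⟩
  · rw [Ideal.span_singleton_prime hP.ne_zero]
    exact hP.prime
  · rw [ne_eq, Ideal.span_singleton_eq_bot]
    exact hP.ne_zero

theorem exists_comp (hCPP : CPPStmt) [Finite F] (h2 : (2 : F) ≠ 0) (P : F[X]) (hPm : P.Monic)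
    (hP : Irreducible P) : ∃ (L : Type) (_ : Field L) (O : ValuationSubring L)
      (ι : RatFunc F →+* L), IsComp F (IP P) (algebraMap F[X] (RatFunc F) P) L O ι := by
  obtain ⟨v, hv⟩ := exists_spec P hP
  exact ⟨_, _, _, _, hCPP F h2 P hPm hP v hv⟩

theorem exists_comp_inf (hCPI : CPIStmt) [Finite F] (h2 : (2 : F) ≠ 0) :
    ∃ (L : Type) (_ : Field L) (O : ValuationSubring L)
      (ι : RatFunc F →+* L), IsComp F (Iinf F) (RatFunc.X)⁻¹ L O ι :=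
  ⟨_, _, _, _, hCPI F h2⟩

theorem mk_ne_zero_iff (P p : F[X]) : AdjoinRoot.mk P p = 0 ↔ P ∣ p := AdjoinRoot.mk_eq_zero

theorem card_pos [Finite F] (P : F[X]) (hPm : P.Monic) : Nat.card (AdjoinRoot P) ≠ 0 := by
  rw [card_adj P hPm]
  exact pow_ne_zero _ Nat.card_pos.ne'

theorem adj_nontrivial (P : F[X]) (hP : Irreducible P) : Nontrivial (AdjoinRoot P) := by
  have := Fact.mk hP
  infer_instance

/-- Labels at a finite place. -/
theorem lab_fin (hCPP : CPPStmt) (hRIP : RIPStmt) (hLLG : LLGStmt) (hPOL : POLStmt) [Finite F]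
    (h2 : (2 : F) ≠ 0) (P : F[X]) (hPm : P.Monic) (hP : Irreducible P) (N : ℕ) (hN : 1 ≤ N)
    (f : F[X] × F[X] × F[X]) (hdisc : ¬ P ^ N ∣ disc f.1 f.2.1 f.2.2)
    (B : Matrix (Fin 3) (Fin 3) F[X]) (hs : Bᵀ = B) (hia : ia B = f.1) (hib : ib B = f.2.1)
    (hic : ic B = f.2.2)
    (D : Set (Matrix (Fin 3) (Fin 3) (RatFunc F) ×
      ((Fin 3 → AdjoinRoot P) × AdjoinRoot P))) (hf : D.Finite)
    (hD : ∀ d ∈ D, d.1.det ≠ 0 ∧ d.1ᵀ * AA (RatFunc F) * d.1 = AA (RatFunc F) ∧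
      ∃ B' : Matrix (Fin 3) (Fin 3) F[X], d.1ᵀ * B.map (algebraMap F[X] (RatFunc F)) * d.1 =
        B'.map (algebraMap F[X] (RatFunc F)) ∧ d.2 ∈ SmF (B'.map (AdjoinRoot.mk P))) :
    ∃ M : ℕ, (M : ℝ) ≤ (Nat.card (AdjoinRoot P) : ℝ) * nE (AdjoinRoot (P ^ N))
        (AdjoinRoot.mk (P ^ N) f.1) (AdjoinRoot.mk (P ^ N) f.2.1)
        (AdjoinRoot.mk (P ^ N) f.2.2) / Nat.card (AdjoinRoot (P ^ N)) + 1 ∧
      ∃ lab : (Matrix (Fin 3) (Fin 3) (RatFunc F) ×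
        ((Fin 3 → AdjoinRoot P) × AdjoinRoot P)) → ℕ × AdjoinRoot P,
      (∀ d ∈ D, (lab d).1 < M ∧ (lab d).2 ≠ 0) ∧
      (∀ d ∈ D, ∀ d' ∈ D, lab d = lab d' → MI (IP P) (d.1⁻¹ * d'.1)) ∧
      (∀ d ∈ D, ∀ d' ∈ D, lab d = lab d' → d.1 = d'.1 → d = d') := by
  obtain ⟨L, iL, O, ι, hc⟩ := exists_comp hCPP h2 P hPm hP
  obtain ⟨hk1, hk2, he⟩ := hRIP F P hPm hP L O ι hc
  obtain ⟨e, he1⟩ := e_one (G := fun p => ι (algebraMap F[X] (RatFunc F) p)) (red := id) (he 1)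
  obtain ⟨eN, heN⟩ := he N
  have hmem : ∀ p : F[X], ι (algebraMap F[X] (RatFunc F) p) ∈ O := by
    intro p
    rw [hc.mem]
    exact (hPOL F).2.2.1 P p hP |>.1
  have := adj_nontrivial P hP
  have key := lab_gen hLLG hc N hN e eN ⟨_, hmem f.1⟩ ⟨_, hmem f.2.1⟩ ⟨_, hmem f.2.2⟩
    (by
      rw [heN, heN, heN, ← disc_map]
      rw [ne_eq, AdjoinRoot.mk_eq_zero]
      exact hdisc)
    (by rw [hk1, hk2]) (card_pos P hPm)
    (by rw [card_adj _ (hPm.pow N), card_adj _ hPm, hPm.natDegree_pow, ← pow_mul,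
      mul_comm N])
    (B.map (algebraMap F[X] (RatFunc F))) (sym_map _ _ hs)
    (by rw [(inv_map _ _).1, hia]) (by rw [(inv_map _ _).2.1, hib])
    (by rw [(inv_map _ _).2.2, hic]) D hf ?_
  · obtain ⟨M, hM, lab, h1, h2, h3⟩ := key
    refine ⟨M, ?_, lab, h1, h2, h3⟩
    rw [heN, heN, heN] at hM
    exact hM
  · intro d hd
    obtain ⟨h1, h2, B', h3, h4⟩ := hD d hd
    refine ⟨h1, h2, Matrix.of fun i j => ⟨algebraMap F[X] (RatFunc F) (B' i j), hmem _⟩, ?_, ?_⟩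
    · rw [h3]
      ext i j
      rfl
    · have : (Matrix.of fun i j => (⟨algebraMap F[X] (RatFunc F) (B' i j), hmem _⟩ :
          O.comap ι)).map ((rL O e).comp (rI O ι)) = B'.map (AdjoinRoot.mk P) := by
        ext i j
        exact he1 _ _
      rw [this]
      exact h4

theorem mem_Iinf (p : F[X]) (M : ℕ) (hp : p.natDegree ≤ M) :
    algebraMap F[X] (RatFunc F) p / RatFunc.X ^ M ∈ Iinf F := by
  change (algebraMap F[X] (RatFunc F) p / RatFunc.X ^ M).intDegree ≤ 0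
  by_cases h0 : p = 0
  · simp [h0]
  · have h1 : algebraMap F[X] (RatFunc F) p ≠ 0 := by
      simpa using h0
    have h2 : (RatFunc.X : RatFunc F) ^ M ≠ 0 := pow_ne_zero _ RatFunc.X_ne_zero
    have h3 : ((RatFunc.X : RatFunc F) ^ M).intDegree = M := by
      rw [← RatFunc.algebraMap_X, ← map_pow, RatFunc.intDegree_polynomial]
      simp
    rw [div_eq_mul_inv, RatFunc.intDegree_mul h1 (inv_ne_zero h2), RatFunc.intDegree_inv, h3,
      RatFunc.intDegree_polynomial]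
    omega

/-- The matrix at infinity over the field. -/
noncomputable def Bi (n m : ℕ) (B : Matrix (Fin 3) (Fin 3) (RatFunc F)) :
    Matrix (Fin 3) (Fin 3) (RatFunc F) :=
  (RatFunc.X : RatFunc F) ^ (-(2 * n : ℤ)) • ((Dm m)⁻¹ * B * (Dm m)⁻¹)

theorem Dm_inv (m : ℕ) : (Dm m : Matrix (Fin 3) (Fin 3) (RatFunc F))⁻¹ =
    Matrix.diagonal fun i => (RatFunc.X : RatFunc F) ^ (-dd m i) := by
  apply Matrix.inv_eq_right_inv
  unfold Dm
  rw [Matrix.diagonal_mul_diagonal]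
  have : (fun i => (RatFunc.X : RatFunc F) ^ dd m i * RatFunc.X ^ (-dd m i)) = 1 := by
    funext i
    rw [← zpow_add₀ RatFunc.X_ne_zero]
    simp
  rw [this]
  exact Matrix.diagonal_one

theorem Bi_apply (n m : ℕ) (hm : m ≤ n) (B : Matrix (Fin 3) (Fin 3) (RatFunc F))
    (i j : Fin 3) : Bi n m B i j =
      B i j / RatFunc.X ^ (2 * (n : ℤ) + dd m i + dd m j).toNat := by
  unfold Bi
  rw [Dm_inv, Matrix.smul_apply, Matrix.mul_diagonal, Matrix.diagonal_mul, smul_eq_mul,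
    div_eq_mul_inv, ← _root_.zpow_natCast, ← _root_.zpow_neg]
  have h0 : 0 ≤ 2 * (n : ℤ) + dd m i + dd m j := by
    fin_cases i <;> fin_cases j <;> simp [dd] <;> omega
  rw [Int.toNat_of_nonneg h0]
  have : -(2 * (n : ℤ) + dd m i + dd m j) = -(2 * n : ℤ) + -dd m i + -dd m j := by ring
  rw [this, zpow_add₀ RatFunc.X_ne_zero, zpow_add₀ RatFunc.X_ne_zero]
  ring

theorem bd_le (n m : ℕ) (B : Matrix (Fin 3) (Fin 3) F[X]) (hB : Bd n m B)
    (i j : Fin 3) : (B i j).natDegree ≤ (2 * (n : ℤ) + dd m i + dd m j).toNat := by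
  by_cases h : B i j = 0
  · simp [h]
  · have := hB.2 i j h
    omega

/-- Labels at infinity. -/
theorem lab_inf (hCPI : CPIStmt) (hRII : RIIStmt) (hLLG : LLGStmt) [Finite F]
    (h2 : (2 : F) ≠ 0) (n N : ℕ) (hN : 1 ≤ N) (f : F[X] × F[X] × F[X]) (hfn : f ∈ Fam F n)
    (hdisc : ¬ X ^ N ∣ disc (finf n f).1 (finf n f).2.1 (finf n f).2.2)
    (B : Matrix (Fin 3) (Fin 3) F[X]) (hs : Bᵀ = B) (hia : ia B = f.1) (hib : ib B = f.2.1)
    (hic : ic B = f.2.2)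
    (D : Set (Matrix (Fin 3) (Fin 3) (RatFunc F) ×
      ((Fin 3 → AdjoinRoot (X : F[X])) × AdjoinRoot (X : F[X])))) (hf : D.Finite)
    (hD : ∀ d ∈ D, d.1.det ≠ 0 ∧ d.1ᵀ * AA (RatFunc F) * d.1 = AA (RatFunc F) ∧
      ∃ (m : ℕ) (B' : Matrix (Fin 3) (Fin 3) F[X]), m ≤ n ∧ Bd n m B' ∧
        d.1ᵀ * ((RatFunc.X : RatFunc F) ^ (-(2 * n : ℤ)) •
          B.map (algebraMap F[X] (RatFunc F))) * d.1 =
        Bi n m (B'.map (algebraMap F[X] (RatFunc F))) ∧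
        d.2 ∈ SmF ((Binf n m B').map (AdjoinRoot.mk X))) :
    ∃ M : ℕ, (M : ℝ) ≤ (Nat.card (AdjoinRoot (X : F[X])) : ℝ) * nE (AdjoinRoot ((X : F[X]) ^ N))
        (AdjoinRoot.mk (X ^ N) (finf n f).1) (AdjoinRoot.mk (X ^ N) (finf n f).2.1)
        (AdjoinRoot.mk (X ^ N) (finf n f).2.2) / Nat.card (AdjoinRoot ((X : F[X]) ^ N)) + 1 ∧
      ∃ lab : (Matrix (Fin 3) (Fin 3) (RatFunc F) ×
        ((Fin 3 → AdjoinRoot (X : F[X])) × AdjoinRoot (X : F[X]))) → ℕ × AdjoinRoot (X : F[X]),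
      (∀ d ∈ D, (lab d).1 < M ∧ (lab d).2 ≠ 0) ∧
      (∀ d ∈ D, ∀ d' ∈ D, lab d = lab d' → MI (Iinf F) (d.1⁻¹ * d'.1)) ∧
      (∀ d ∈ D, ∀ d' ∈ D, lab d = lab d' → d.1 = d'.1 → d = d') := by
  obtain ⟨L, iL, O, ι, hc⟩ := exists_comp_inf hCPI h2
  obtain ⟨hk1, hk2, he⟩ := hRII F L O ι hc
  obtain ⟨e, he1⟩ := e_one' (G := fun M p => ι (algebraMap F[X] (RatFunc F) p / RatFunc.X ^ M))
    (C := fun M p => p.natDegree ≤ M) (red := fun M p => p.reflect M) (he 1)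
  obtain ⟨eN, heN⟩ := he N
  have hmem : ∀ (p : F[X]) (M : ℕ), p.natDegree ≤ M →
      ι (algebraMap F[X] (RatFunc F) p / RatFunc.X ^ M) ∈ O := by
    intro p M hp
    rw [hc.mem]
    exact mem_Iinf p M hp
  have := adj_nontrivial (X : F[X]) irreducible_X
  have hX0 : (RatFunc.X : RatFunc F) ≠ 0 := RatFunc.X_ne_zero
  have key := lab_gen hLLG hc N hN e eN ⟨_, hmem f.1 _ hfn.1⟩ ⟨_, hmem f.2.1 _ hfn.2.1⟩
    ⟨_, hmem f.2.2 _ hfn.2.2⟩
    (by
      rw [heN _ _ hfn.1, heN _ _ hfn.2.1, heN _ _ hfn.2.2, ← disc_map]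
      rw [ne_eq, AdjoinRoot.mk_eq_zero]
      exact hdisc)
    (by rw [hk1, hk2]) (card_pos X monic_X)
    (by rw [card_adj _ (monic_X.pow N), card_adj _ monic_X, natDegree_X_pow, natDegree_X,
      pow_one])
    ((RatFunc.X : RatFunc F) ^ (-(2 * n : ℤ)) • B.map (algebraMap F[X] (RatFunc F)))
    (by rw [Matrix.transpose_smul, sym_map _ _ hs])
    (by
      have h1 := (inv_map (algebraMap F[X] (RatFunc F)) B).1
      rw [hia] at h1
      simp only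
      congr 1
      rw [← h1]
      simp only [ia, Matrix.smul_apply, smul_eq_mul]
      rw [_root_.zpow_neg, show (2 * (n : ℤ)) = ((2 * n : ℕ) : ℤ) by push_cast; ring, _root_.zpow_natCast]
      field_simp)
    (by
      have h1 := (inv_map (algebraMap F[X] (RatFunc F)) B).2.1
      rw [hib] at h1
      simp only
      congr 1
      rw [← h1]
      simp only [ib, Matrix.smul_apply, smul_eq_mul]
      rw [_root_.zpow_neg, show (2 * (n : ℤ)) = ((2 * n : ℕ) : ℤ) by push_cast; ring, _root_.zpow_natCast,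
        show 4 * n = 2 * n + 2 * n by ring, pow_add]
      field_simp)
    (by
      have h1 := (inv_map (algebraMap F[X] (RatFunc F)) B).2.2
      rw [hic] at h1
      simp only
      congr 1
      rw [← h1]
      simp only [ic]
      rw [Matrix.det_smul, Fintype.card_fin,
        _root_.zpow_neg, show (2 * (n : ℤ)) = ((2 * n : ℕ) : ℤ) by push_cast; ring, _root_.zpow_natCast,
        show 6 * n = 2 * n + 2 * n + 2 * n by ring, pow_add, pow_add]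
      field_simp) D hf ?_
  · obtain ⟨M, hM, lab, h1, h2, h3⟩ := key
    refine ⟨M, ?_, lab, h1, h2, h3⟩
    rw [heN _ _ hfn.1, heN _ _ hfn.2.1, heN _ _ hfn.2.2] at hM
    exact hM
  · intro d hd
    obtain ⟨h1, h2, m, B', hmn, hBd, h3, h4⟩ := hD d hd
    refine ⟨h1, h2, Matrix.of fun i j => ⟨algebraMap F[X] (RatFunc F) (B' i j) /
      RatFunc.X ^ (2 * (n : ℤ) + dd m i + dd m j).toNat, hmem _ _ (bd_le n m B' hBd i j)⟩, ?_, ?_⟩
    · rw [h3]
      ext i j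
      rw [Bi_apply n m hmn]
      rfl
    · have : (Matrix.of fun i j => (⟨algebraMap F[X] (RatFunc F) (B' i j) /
          RatFunc.X ^ (2 * (n : ℤ) + dd m i + dd m j).toNat, hmem _ _ (bd_le n m B' hBd i j)⟩ :
          O.comap ι)).map ((rL O e).comp (rI O ι)) = (Binf n m B').map (AdjoinRoot.mk X) := by
        ext i j
        exact he1 _ _ (bd_le n m B' hBd i j) _
      rw [this]
      exact h4

end

end Pool.AVS.WLL
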