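import Pool.Agent.H26.AVS.WLL3

/-!
# AVS, module WLL, part 4: local solubility; the contribution of one class
-/

set_option autoImplicit false
set_option linter.unusedSectionVars false

namespace Pool.AVS.WLL

open Polynomial Matrix Pool.AVR Pool.AVS

section

variable {F : Type} [Field F]

theorem solv_fin (hHSM : HSMStmt) (hSOL : SOLStmt) (hRIP : RIPStmt) (hPOL : POLStmt) [Finite F]
    (P : F[X]) (hPm : P.Monic) (hP : Irreducible P) (L : Type) [Field L]
    (O : ValuationSubring L) (ι : RatFunc F →+* L)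
    (hc : IsComp F (IP P) (algebraMap F[X] (RatFunc F) P) L O ι) (f : F[X] × F[X] × F[X])
    (hsep : (cubK f).Separable) (B : Matrix (Fin 3) (Fin 3) F[X]) (hs : Bᵀ = B)
    (h : (RatFunc F)[X])
    (hR : RepH (kf f).1 (kf f).2.1 (kf f).2.2 h (AA (RatFunc F))
      (B.map (algebraMap F[X] (RatFunc F))))
    (hne : (SmF (B.map (AdjoinRoot.mk P))).Nonempty) :
    LocSol (ι (kf f).1) (ι (kf f).2.1) (ι (kf f).2.2) (h.map ι) := by
  obtain ⟨hk1, hk2, he⟩ := hRIP F P hPm hP L O ι hc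
  obtain ⟨e, he1⟩ := e_one (G := fun p => ι (algebraMap F[X] (RatFunc F) p)) (red := id) (he 1)
  have hmem : ∀ p : F[X], ι (algebraMap F[X] (RatFunc F) p) ∈ O := by
    intro p
    rw [hc.mem]
    exact (hPOL F).2.2.1 P p hP |>.1
  have hR' := repH_map ι _ _ _ _ _ _ hR
  rw [AA_map] at hR'
  have hsep' : (cub (ι (kf f).1) (ι (kf f).2.1) (ι (kf f).2.2)).Separable := by
    rw [← cub_map]
    exact hsep.map
  refine solv hHSM hSOL hc e _ _ _ _ _ hsep' hR'
    (Matrix.of fun i j => ⟨ι (algebraMap F[X] (RatFunc F) (B i j)), hmem _⟩) ?_ 1 1 one_ne_zero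
    one_ne_zero ?_ ?_
  · ext i j
    have : B j i = B i j := congrFun (congrFun hs i) j
    simp only [Matrix.transpose_apply, Matrix.of_apply, this]
  · intro s
    rw [one_pow, mul_one, one_mul]
    rfl
  · have : (Matrix.of fun i j => (⟨ι (algebraMap F[X] (RatFunc F) (B i j)), hmem _⟩ :
          O)).map (rL O e) = B.map (AdjoinRoot.mk P) := by
      ext i j
      exact he1 _ _
    rw [this]
    exact hne

theorem inf_scale {L : Type} [Field L] (B : Matrix (Fin 3) (Fin 3) L) (T : L) (hT : T ≠ 0)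
    (n m : ℕ) (hmn : m ≤ n) (s : L) :
    bil (Matrix.of fun i j => B i j / T ^ (2 * (n : ℤ) + dd m i + dd m j).toNat) (zz 1 s) (zz 1 s) *
      (T ^ (n - m)) ^ 2 = bil B (zz 1 ((T ^ m)⁻¹ * s)) (zz 1 ((T ^ m)⁻¹ * s)) := by
  obtain ⟨r, rfl⟩ := Nat.exists_eq_add_of_le hmn
  have e00 : (2 * ((m + r : ℕ) : ℤ) + dd m 0 + dd m 0).toNat = r + r := by
    simp [dd]; omega
  have e01 : (2 * ((m + r : ℕ) : ℤ) + dd m 0 + dd m 1).toNat = r + r + m := by
    simp [dd]; omega
  have e10 : (2 * ((m + r : ℕ) : ℤ) + dd m 1 + dd m 0).toNat = r + r + m := by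
    simp [dd]; omega
  have e02 : (2 * ((m + r : ℕ) : ℤ) + dd m 0 + dd m 2).toNat = r + r + m + m := by
    simp [dd]; omega
  have e20 : (2 * ((m + r : ℕ) : ℤ) + dd m 2 + dd m 0).toNat = r + r + m + m := by
    simp [dd]; omega
  have e11 : (2 * ((m + r : ℕ) : ℤ) + dd m 1 + dd m 1).toNat = r + r + m + m := by
    simp [dd]; omega
  have e12 : (2 * ((m + r : ℕ) : ℤ) + dd m 1 + dd m 2).toNat = r + r + m + m + m := by
    simp [dd]; omega
  have e21 : (2 * ((m + r : ℕ) : ℤ) + dd m 2 + dd m 1).toNat = r + r + m + m + m := by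
    simp [dd]; omega
  have e22 : (2 * ((m + r : ℕ) : ℤ) + dd m 2 + dd m 2).toNat = r + r + m + m + m + m := by
    simp [dd]; omega
  have hr : m + r - m = r := by omega
  have hTm : T ^ m ≠ 0 := pow_ne_zero _ hT
  have hTr : T ^ r ≠ 0 := pow_ne_zero _ hT
  simp only [bil, dotProduct, Matrix.mulVec, Fin.sum_univ_three, Matrix.of_apply, e00, e01, e10,
    e02, e20, e11, e12, e21, e22, hr, pow_add]
  simp only [zz, Matrix.cons_val_zero, Matrix.cons_val_one, Matrix.cons_val]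
  generalize T ^ m = U at *
  generalize T ^ r = V at *
  field_simp

theorem solv_inf (hHSM : HSMStmt) (hSOL : SOLStmt) (hRII : RIIStmt) [Finite F]
    (L : Type) [Field L] (O : ValuationSubring L) (ι : RatFunc F →+* L)
    (hc : IsComp F (Iinf F) (RatFunc.X)⁻¹ L O ι) (f : F[X] × F[X] × F[X])
    (hsep : (cubK f).Separable) (n m : ℕ) (hmn : m ≤ n) (B : Matrix (Fin 3) (Fin 3) F[X])
    (hBd : Bd n m B) (h : (RatFunc F)[X])
    (hR : RepH (kf f).1 (kf f).2.1 (kf f).2.2 h (AA (RatFunc F))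
      (B.map (algebraMap F[X] (RatFunc F))))
    (hne : (SmF ((Binf n m B).map (AdjoinRoot.mk X))).Nonempty) :
    LocSol (ι (kf f).1) (ι (kf f).2.1) (ι (kf f).2.2) (h.map ι) := by
  obtain ⟨hk1, hk2, he⟩ := hRII F L O ι hc
  obtain ⟨e, he1⟩ := e_one' (G := fun M p => ι (algebraMap F[X] (RatFunc F) p / RatFunc.X ^ M))
    (C := fun M p => p.natDegree ≤ M) (red := fun M p => p.reflect M) (he 1)
  have hmem : ∀ (p : F[X]) (M : ℕ), p.natDegree ≤ M →
      ι (algebraMap F[X] (RatFunc F) p / RatFunc.X ^ M) ∈ O := by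
    intro p M hp
    rw [hc.mem]
    exact mem_Iinf p M hp
  have hR' := repH_map ι _ _ _ _ _ _ hR
  rw [AA_map] at hR'
  have hsep' : (cub (ι (kf f).1) (ι (kf f).2.1) (ι (kf f).2.2)).Separable := by
    rw [← cub_map]
    exact hsep.map
  have hT : ι RatFunc.X ≠ 0 := by
    rw [ne_eq, map_eq_zero]
    exact RatFunc.X_ne_zero
  refine solv hHSM hSOL hc e _ _ _ _ _ hsep' hR'
    (Matrix.of fun i j => ⟨ι (algebraMap F[X] (RatFunc F) (B i j) /
      RatFunc.X ^ (2 * (n : ℤ) + dd m i + dd m j).toNat), hmem _ _ (bd_le n m B hBd i j)⟩) ?_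
      ((ι RatFunc.X) ^ (n - m)) ((ι RatFunc.X) ^ m)⁻¹ (pow_ne_zero _ hT)
    (inv_ne_zero (pow_ne_zero _ hT)) ?_ ?_
  · ext i j
    have : B j i = B i j := congrFun (congrFun hBd.1 i) j
    have h3 : 2 * (n : ℤ) + dd m j + dd m i = 2 * (n : ℤ) + dd m i + dd m j := by ring
    simp only [Matrix.transpose_apply, Matrix.of_apply, this, h3]
  · intro s
    rw [← inf_scale _ _ hT n m hmn]
    congr 2
    ext i j
    simp only [Matrix.map_apply, Matrix.of_apply]
    rw [← map_pow, ← map_div₀]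
    rfl
  · have : (Matrix.of fun i j => (⟨ι (algebraMap F[X] (RatFunc F) (B i j) /
      RatFunc.X ^ (2 * (n : ℤ) + dd m i + dd m j).toNat), hmem _ _ (bd_le n m B hBd i j)⟩ :
          O)).map (rL O e) = (Binf n m B).map (AdjoinRoot.mk X) := by
      ext i j
      exact he1 _ _ (bd_le n m B hBd i j) _
    rw [this]
    exact hne

theorem AA_mul_self {A : Type} [CommRing A] : AA A * AA A = 1 := by
  ext i j
  fin_cases i <;> fin_cases j <;> simp [AA, Matrix.mul_apply, Fin.sum_univ_three]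

theorem inv_eq {K : Type} [Field K] (g : Matrix (Fin 3) (Fin 3) K)
    (hg : gᵀ * AA K * g = AA K) : g⁻¹ = AA K * gᵀ * AA K := by
  apply Matrix.inv_eq_left_inv
  rw [mul_assoc, mul_assoc, ← mul_assoc gᵀ, hg, AA_mul_self]

theorem mi_inv {K : Type} [Field K] (I : Set K) (g : Matrix (Fin 3) (Fin 3) K)
    (hg : gᵀ * AA K * g = AA K) (hI : MI I g) : MI I g⁻¹ := by
  rw [inv_eq g hg]
  intro i j
  have : ∀ i j : Fin 3, (AA K * gᵀ * AA K) i j = g (2 - j) (2 - i) := by
    intro i j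
    fin_cases i <;> fin_cases j <;>
      simp [AA, Matrix.mul_apply, Fin.sum_univ_three, Matrix.vecMul, dotProduct]
  rw [this]
  exact hI _ _

/-- The lattice is unique at the primes not in `S`. -/
theorem unq_P (hCPP : CPPStmt) (hUNQ : UNQStmt) (hPOL : POLStmt) [Finite F] (h2 : (2 : F) ≠ 0)
    (P : F[X]) (hPm : P.Monic) (hP : Irreducible P) (B : Matrix (Fin 3) (Fin 3) F[X])
    (hs : Bᵀ = B) (hd : ¬ P ^ 2 ∣ dB B) (g : Matrix (Fin 3) (Fin 3) (RatFunc F))
    (hg : gᵀ * AA (RatFunc F) * g = AA (RatFunc F)) (B' : Matrix (Fin 3) (Fin 3) F[X])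
    (hB' : gᵀ * B.map (algebraMap F[X] (RatFunc F)) * g = B'.map (algebraMap F[X] (RatFunc F))) :
    MI (IP P) g := by
  obtain ⟨L, iL, O, ι, hc⟩ := exists_comp hCPP h2 P hPm hP
  have hmem : ∀ p : F[X], ι (algebraMap F[X] (RatFunc F) p) ∈ O := by
    intro p
    rw [hc.mem]
    exact (hPOL F).2.2.1 P p hP |>.1
  have h2L := hc.loc.two
  have h2K : (2 : RatFunc F) ≠ 0 := by
    intro h
    apply h2L.1
    rw [← map_ofNat ι, h, map_zero]
  have key := hUNQ (RatFunc F) (O.comap ι) (algebraMap F[X] (RatFunc F) P) h2K ?_ ?_ ?_ ?_ ?_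
    (B.map (algebraMap F[X] (RatFunc F))) g (sym_map _ _ hs) ?_ ?_ hg ?_
  · intro i j
    have := key i j
    rw [← hc.mem]
    exact this
  · change ι (2 : RatFunc F)⁻¹ ∈ O
    rw [map_inv₀, map_ofNat]
    exact h2L.2
  · exact hmem P
  · intro h
    apply hc.loc.pi_ne
    rw [h, map_zero]
  · intro x hx hx0
    have := hc.loc.unif (ι x) hx (by rwa [ne_eq, map_eq_zero])
    rw [← map_inv₀, ← map_div₀] at this
    exact this
  · intro x hx0
    obtain ⟨z, h3, h4⟩ := hc.loc.arch (ι x) (by rwa [ne_eq, map_eq_zero])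
    refine ⟨z, ?_, ?_⟩
    · change ι _ ∈ O
      rw [map_div₀, map_zpow₀]
      exact h3
    · change ι _ ∈ O
      rw [map_inv₀, map_div₀, map_zpow₀]
      exact h4
  · intro i j
    exact hmem _
  · have h3 : dB (B.map (algebraMap F[X] (RatFunc F))) = algebraMap F[X] (RatFunc F) (dB B) := by
      unfold dB
      rw [(inv_map _ _).1, (inv_map _ _).2.1, (inv_map _ _).2.2, ← disc_map]
    rw [h3]
    intro h4
    have h5 : algebraMap F[X] (RatFunc F) (dB B) / algebraMap F[X] (RatFunc F) P ^ 2 ∈ IP P := by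
      rw [← hc.mem]
      exact h4
    exact hd (((hPOL F).2.2.1 P (dB B) hP).2 2 |>.1 h5)
  · rw [hB']
    intro i j
    exact hmem _

theorem mi_mul (hPOL : POLStmt) (P : F[X]) (hP : Irreducible P)
    (g g' : Matrix (Fin 3) (Fin 3) (RatFunc F)) (h : MI (IP P) g) (h' : MI (IP P) g') :
    MI (IP P) (g * g') := by
  intro i j
  rw [Matrix.mul_apply, Fin.sum_univ_three]
  have hc := (hPOL F).2.1 P hP
  exact (hc _ _ ((hc _ _ ((hc _ _ (h _ _) (h' _ _)).2.1) ((hc _ _ (h _ _) (h' _ _)).2.1)).1)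
    ((hc _ _ (h _ _) (h' _ _)).2.1)).1

end

end Pool.AVS.WLL
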