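import Pool.Agent.H26.AVS.WLL4

/-!
# AVS, module WLL, part 5: the contribution of one class is at most one
-/

set_option autoImplicit false
set_option linter.unusedSectionVars false

namespace Pool.AVS.WLL

open Polynomial Matrix Pool.AVR Pool.AVS

section

variable {F : Type} [Field F]

/-- The modulus at a place. -/
noncomputable def pv (S : Finset F[X]) : Option {P // P ∈ S} → F[X]
  | none => X
  | some P => P.1

/-- The matrix at a place. -/
noncomputable def Bv (n : ℕ) (S : Finset F[X]) : Option {P // P ∈ S} →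
    (Σ _ : ℕ, Matrix (Fin 3) (Fin 3) F[X]) → Matrix (Fin 3) (Fin 3) F[X]
  | none, p => Binf n p.1 p.2
  | some _, p => p.2

/-- The cubic at a place. -/
noncomputable def fv (n : ℕ) (S : Finset F[X]) (f : F[X] × F[X] × F[X]) :
    Option {P // P ∈ S} → F[X] × F[X] × F[X]
  | none => finf n f
  | some _ => f

/-- The local ring at a place. -/
def Iv (S : Finset F[X]) : Option {P // P ∈ S} → Set (RatFunc F)
  | none => Iinf F
  | some P => IP P.1

/-- The lattice at a place. -/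
noncomputable def Gv (S : Finset F[X]) : Option {P // P ∈ S} →
    ℕ → Matrix (Fin 3) (Fin 3) (RatFunc F) → Matrix (Fin 3) (Fin 3) (RatFunc F)
  | none, m, g => g * (Dm m)⁻¹
  | some _, _, g => g

/-- The mass at a place. -/
noncomputable def Iva (n N : ℕ) (S : Finset F[X]) (f : F[X] × F[X] × F[X])
    (v : Option {P // P ∈ S}) : ℝ :=
  (Nat.card (AdjoinRoot (pv S v)) : ℝ) * nE (AdjoinRoot (pv S v ^ N))
    (AdjoinRoot.mk (pv S v ^ N) (fv n S f v).1) (AdjoinRoot.mk (pv S v ^ N) (fv n S f v).2.1)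
    (AdjoinRoot.mk (pv S v ^ N) (fv n S f v).2.2) / Nat.card (AdjoinRoot (pv S v ^ N)) + 1

theorem Iva_pos (n N : ℕ) (S : Finset F[X]) (f : F[X] × F[X] × F[X])
    (v : Option {P // P ∈ S}) : 0 < Iva n N S f v := by
  unfold Iva
  positivity

theorem WS_eq (n m : ℕ) (S : Finset F[X]) (N : ℕ) (B : Matrix (Fin 3) (Fin 3) F[X]) :
    WS n m S N B = ∏ v : Option {P // P ∈ S}, wt (pv S v) N (Bv n S v ⟨m, B⟩) := by
  rw [Fintype.prod_option, mul_comm]
  unfold WS
  congr 1
  exact (Finset.prod_coe_sort S (fun P => wt P N B)).symm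

theorem wt_eq (hBIN : BINStmt) (n N : ℕ) (S : Finset F[X]) (f : F[X] × F[X] × F[X])
    (p : Σ _ : ℕ, Matrix (Fin 3) (Fin 3) F[X]) (hm : p.1 ≤ n) (hBd : Bd n p.1 p.2)
    (hia : ia p.2 = f.1) (hib : ib p.2 = f.2.1) (hic : ic p.2 = f.2.2)
    (v : Option {P // P ∈ S}) :
    wt (pv S v) N (Bv n S v p) =
      ((SmF ((Bv n S v p).map (AdjoinRoot.mk (pv S v)))).ncard : ℝ) /
        (((Nat.card (AdjoinRoot (pv S v)) : ℝ) - 1) * Iva n N S f v) := by
  have hinv : ia (Bv n S v p) = (fv n S f v).1 ∧ ib (Bv n S v p) = (fv n S f v).2.1 ∧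
      ic (Bv n S v p) = (fv n S f v).2.2 := by
    cases v with
    | none =>
      obtain ⟨-, -, h1, h2, h3, -⟩ := hBIN F n p.1 hm p.2 hBd
      simp only [Bv, fv, finf]
      rw [h1, h2, h3, hia, hib, hic]
      exact ⟨rfl, rfl, rfl⟩
    | some P => exact ⟨hia, hib, hic⟩
  unfold wt Iva
  rw [hinv.1, hinv.2.1, hinv.2.2]

/-- The isometry relating two matrices of one class. -/
theorem iso_exists (hBSH : BSHStmt) {K : Type} [Field K] (a b c : K) (h : K[X])
    (B B' : Matrix (Fin 3) (Fin 3) K) (hR : RepH a b c h (AA K) B) (hR' : RepH a b c h (AA K) B') :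
    ∃ g : Matrix (Fin 3) (Fin 3) K, gᵀ * AA K * g = AA K ∧ g.det = 1 ∧ gᵀ * B' * g = B := by
  obtain ⟨g, h1, h2⟩ := hBSH K a b c h _ _ _ _ hR hR' (by rw [AA_det]; simp)
  have hdet : g.det * g.det = 1 := by
    have := congrArg Matrix.det h1
    rw [Matrix.det_mul, Matrix.det_mul, Matrix.det_transpose, AA_det] at this
    linear_combination this
  rcases mul_self_eq_one_iff.1 hdet with h3 | h3
  · exact ⟨g, h1.symm, h3, h2.symm⟩
  · refine ⟨-g, ?_, ?_, ?_⟩
    · rw [Matrix.transpose_neg, neg_mul, neg_mul, mul_neg, neg_neg]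
      exact h1.symm
    · rw [Matrix.det_neg, h3, Fintype.card_fin]
      ring
    · rw [Matrix.transpose_neg, neg_mul, neg_mul, mul_neg, neg_neg]
      exact h2.symm

theorem Dm_det (m : ℕ) : (Dm m : Matrix (Fin 3) (Fin 3) (RatFunc F)).det = 1 := by
  unfold Dm
  rw [Matrix.det_diagonal, Fin.prod_univ_three, ← zpow_add₀ RatFunc.X_ne_zero,
    ← zpow_add₀ RatFunc.X_ne_zero]
  simp [dd]

theorem Dm_inv_iso (m : ℕ) : ((Dm m : Matrix (Fin 3) (Fin 3) (RatFunc F))⁻¹)ᵀ *
    AA (RatFunc F) * (Dm m)⁻¹ = AA (RatFunc F) := by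
  rw [Dm_inv, Matrix.diagonal_transpose]
  ext i j
  rw [Matrix.mul_diagonal, Matrix.diagonal_mul]
  have hX : (RatFunc.X : RatFunc F) ^ m ≠ 0 := pow_ne_zero _ RatFunc.X_ne_zero
  fin_cases i <;> fin_cases j <;> simp [AA, dd, hX]

theorem Dm_tr (m : ℕ) : ((Dm m : Matrix (Fin 3) (Fin 3) (RatFunc F))⁻¹)ᵀ = (Dm m)⁻¹ := by
  rw [Dm_inv, Matrix.diagonal_transpose]

theorem poly_of_mi (hPOL : POLStmt) (γ : Matrix (Fin 3) (Fin 3) (RatFunc F))
    (h : ∀ P : F[X], P.Monic → Irreducible P → MI (IP P) γ) :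
    ∃ γ' : Matrix (Fin 3) (Fin 3) F[X], γ'.map (algebraMap F[X] (RatFunc F)) = γ := by
  have : ∀ i j, ∃ p : F[X], γ i j = algebraMap F[X] (RatFunc F) p := by
    intro i j
    exact (hPOL F).1 (γ i j) (fun P hPm hP => h P hPm hP i j)
  choose p hp using this
  refine ⟨Matrix.of p, ?_⟩
  ext i j
  exact (hp i j).symm

theorem map_inj (M M' : Matrix (Fin 3) (Fin 3) F[X])
    (h : M.map (algebraMap F[X] (RatFunc F)) = M'.map (algebraMap F[X] (RatFunc F))) :
    M = M' := by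
  ext1 i j
  have := congrFun (congrFun h i) j
  exact RatFunc.algebraMap_injective F this

theorem map_mul' (M M' : Matrix (Fin 3) (Fin 3) F[X]) :
    (M * M').map (algebraMap F[X] (RatFunc F)) =
      M.map (algebraMap F[X] (RatFunc F)) * M'.map (algebraMap F[X] (RatFunc F)) :=
  Matrix.map_mul

end

end Pool.AVS.WLL
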