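import Pool.Agent.H26.AVS.WLL5

/-!
# AVS, module WLL, part 6: the contribution of one class is at most one
-/

set_option autoImplicit false
set_option linter.unusedSectionVars false

namespace Pool.AVS.WLL

open Polynomial Matrix Pool.AVR Pool.AVS

section

variable {F : Type} [Field F]

open Classical in
/-- The fibre argument. -/
theorem fibre_le (hPOL : POLStmt) (hMUQ : MUQStmt) (hGRE : GREStmt) [Finite F]
    (h2 : (2 : F) ≠ 0) (S : Finset F[X])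
    (B₁ : Matrix (Fin 3) (Fin 3) F[X])
    (T : Finset (Σ _ : ℕ, Matrix (Fin 3) (Fin 3) F[X]))
    (g : (Σ _ : ℕ, Matrix (Fin 3) (Fin 3) F[X]) → Matrix (Fin 3) (Fin 3) (RatFunc F))
    (hg1 : ∀ p ∈ T, (g p)ᵀ * AA (RatFunc F) * g p = AA (RatFunc F))
    (hg2 : ∀ p ∈ T, (g p).det = 1)
    (hg3 : ∀ p ∈ T, (g p)ᵀ * B₁.map (algebraMap F[X] (RatFunc F)) * g p =
      p.2.map (algebraMap F[X] (RatFunc F)))
    (hloc : ∀ P : F[X], P.Monic → Irreducible P → P ∉ S → ∀ p ∈ T, MI (IP P) (g p))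
    (lab : ∀ v : Option {P // P ∈ S}, (Matrix (Fin 3) (Fin 3) (RatFunc F) ×
      ((Fin 3 → AdjoinRoot (pv S v)) × AdjoinRoot (pv S v))) → ℕ × AdjoinRoot (pv S v))
    (Φ : Finset (Σ _ : (Σ _ : ℕ, Matrix (Fin 3) (Fin 3) F[X]),
      ∀ v : Option {P // P ∈ S}, (Fin 3 → AdjoinRoot (pv S v)) × AdjoinRoot (pv S v)))
    (hΦT : ∀ ω ∈ Φ, ω.1 ∈ T)
    (hΦ : ∀ v, ∀ ω ∈ Φ, ∀ ω' ∈ Φ, lab v (Gv S v ω.1.1 (g ω.1), ω.2 v) =
      lab v (Gv S v ω'.1.1 (g ω'.1), ω'.2 v))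
    (hl1 : ∀ v, ∀ ω ∈ Φ, ∀ ω' ∈ Φ, lab v (Gv S v ω.1.1 (g ω.1), ω.2 v) =
      lab v (Gv S v ω'.1.1 (g ω'.1), ω'.2 v) →
      MI (Iv S v) ((Gv S v ω.1.1 (g ω.1))⁻¹ * Gv S v ω'.1.1 (g ω'.1)))
    (hl2 : ∀ v, ∀ ω ∈ Φ, ∀ ω' ∈ Φ, lab v (Gv S v ω.1.1 (g ω.1), ω.2 v) =
      lab v (Gv S v ω'.1.1 (g ω'.1), ω'.2 v) → Gv S v ω.1.1 (g ω.1) = Gv S v ω'.1.1 (g ω'.1) →
      ω.2 v = ω'.2 v) :
    ∑ ω ∈ Φ, 1 / ((GG F ω.1.1).ncard : ℝ) ≤ 1 := by
  rcases Φ.eq_empty_or_nonempty with he | ⟨ω₀, h0⟩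
  · rw [he, Finset.sum_empty]
    exact zero_le_one
  have key : ∀ ω ∈ Φ, ∃ γ : Matrix (Fin 3) (Fin 3) F[X],
      γ.map (algebraMap F[X] (RatFunc F)) = (g ω₀.1)⁻¹ * g ω.1 ∧ ω₀.1.1 = ω.1.1 ∧
      γ ∈ GG F ω₀.1.1 := by
    intro ω hω
    have hT0 := hΦT _ h0
    have hT := hΦT _ hω
    have hu0 : IsUnit (g ω₀.1).det := by rw [hg2 _ hT0]; exact isUnit_one
    have hint : ∀ P : F[X], P.Monic → Irreducible P → MI (IP P) ((g ω₀.1)⁻¹ * g ω.1) := by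
      intro P hPm hP
      by_cases hPS : P ∈ S
      · exact hl1 (some ⟨P, hPS⟩) ω₀ h0 ω hω (hΦ _ _ h0 _ hω)
      · exact mi_mul hPOL P hP _ _ (mi_inv _ _ (hg1 _ hT0) (hloc P hPm hP hPS _ hT0))
          (hloc P hPm hP hPS _ hT)
    obtain ⟨γ, hγ⟩ := poly_of_mi hPOL _ hint
    have hdet : γ.det = 1 := by
      apply RatFunc.algebraMap_injective F
      rw [RingHom.map_det]
      change (γ.map (algebraMap F[X] (RatFunc F))).det = _
      rw [hγ, Matrix.det_mul, hg2 _ hT, mul_one, map_one]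
      rw [Matrix.det_nonsing_inv, hg2 _ hT0]
      simp
    have hinvT : ((g ω₀.1)⁻¹)ᵀ * AA (RatFunc F) * (g ω₀.1)⁻¹ = AA (RatFunc F) := by
      conv_lhs => rw [← hg1 _ hT0]
      rw [← mul_assoc, ← mul_assoc, ← Matrix.transpose_mul, Matrix.mul_nonsing_inv _ hu0,
        Matrix.transpose_one, one_mul, mul_assoc, Matrix.mul_nonsing_inv _ hu0, mul_one]
    have hiso : γᵀ * AA F[X] * γ = AA F[X] := by
      apply map_inj
      rw [map_mul', map_mul', Matrix.transpose_map, AA_map, hγ, Matrix.transpose_mul]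
      calc (g ω.1)ᵀ * ((g ω₀.1)⁻¹)ᵀ * AA (RatFunc F) * ((g ω₀.1)⁻¹ * g ω.1) =
          (g ω.1)ᵀ * (((g ω₀.1)⁻¹)ᵀ * AA (RatFunc F) * (g ω₀.1)⁻¹) * g ω.1 := by
            simp only [mul_assoc]
        _ = AA (RatFunc F) := by rw [hinvT, hg1 _ hT]
    have hinf : MI (Iinf F) (Dm ω₀.1.1 * γ.map (algebraMap F[X] (RatFunc F)) *
        (Dm ω.1.1)⁻¹) := by
      have h3 := hl1 none ω₀ h0 ω hω (hΦ _ _ h0 _ hω)
      simp only [Gv, Iv] at h3
      rw [Matrix.mul_inv_rev, Matrix.nonsing_inv_nonsing_inv _ (by rw [Dm_det]; exact isUnit_one)]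
        at h3
      rw [hγ]
      simpa only [mul_assoc] using h3
    obtain ⟨h4, h5⟩ := hMUQ F ω₀.1.1 ω.1.1 γ hdet hiso hinf
    exact ⟨γ, hγ, h4, h5⟩
  choose! γ hγ hm hG using key
  have hcard : Φ.card ≤ (GG F ω₀.1.1).ncard := by
    rw [← Set.ncard_coe_finset]
    refine Set.ncard_le_ncard_of_injOn γ (fun ω hω => hG ω hω) ?_ ((hGRE F h2).1 _)
    intro ω hω ω' hω' hγγ
    simp only [Finset.mem_coe] at hω hω'
    have hT0 := hΦT _ h0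
    have hT := hΦT _ hω
    have hT' := hΦT _ hω'
    have hu0 : IsUnit (g ω₀.1).det := by rw [hg2 _ hT0]; exact isUnit_one
    have h3 : g ω.1 = g ω'.1 := by
      have h4 : (g ω₀.1)⁻¹ * g ω.1 = (g ω₀.1)⁻¹ * g ω'.1 := by
        rw [← hγ _ hω, ← hγ _ hω', hγγ]
      have h5 := congrArg (fun M => g ω₀.1 * M) h4
      simp only [← mul_assoc, Matrix.mul_nonsing_inv _ hu0, one_mul] at h5
      exact h5
    have h6 : ω.1.1 = ω'.1.1 := (hm _ hω).symm.trans (hm _ hω')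
    have h7 : ω.1.2 = ω'.1.2 := by
      apply map_inj
      rw [← hg3 _ hT, ← hg3 _ hT', h3]
    have h8 : ∀ v, ω.2 v = ω'.2 v := by
      intro v
      refine hl2 v ω hω ω' hω' (hΦ v _ hω _ hω') ?_
      rw [h6, h3]
    obtain ⟨⟨m, B⟩, s⟩ := ω
    obtain ⟨⟨m', B'⟩, s'⟩ := ω'
    simp only at h6 h7 h8
    subst h6 h7
    have : s = s' := funext h8
    subst this
    rfl
  have hconst : ∀ ω ∈ Φ, 1 / ((GG F ω.1.1).ncard : ℝ) = 1 / ((GG F ω₀.1.1).ncard : ℝ) := by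
    intro ω hω
    rw [hm _ hω]
  rw [Finset.sum_congr rfl hconst, Finset.sum_const, nsmul_eq_mul, mul_one_div]
  apply div_le_one_of_le₀
  · exact_mod_cast hcard
  · positivity

open Classical in
/-- The contribution of one class is at most one. -/
theorem class_le (hCPP : CPPStmt) (hCPI : CPIStmt) (hRIP : RIPStmt) (hRII : RIIStmt)
    (hLLG : LLGStmt) (hPOL : POLStmt) (hMUQ : MUQStmt) (hGRE : GREStmt) (hUNQ : UNQStmt)
    (hBSH : BSHStmt) (hBIN : BINStmt) [Finite F]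
    (h2 : (2 : F) ≠ 0) (n N : ℕ) (hN : 1 ≤ N) (S : Finset F[X])
    (hS : ∀ P ∈ S, P.Monic ∧ Irreducible P) (f : F[X] × F[X] × F[X]) (hfn : f ∈ Fam F n)
    (hdS : ∀ P ∈ S, ¬ P ^ N ∣ disc f.1 f.2.1 f.2.2)
    (hdi : ¬ X ^ N ∣ disc (finf n f).1 (finf n f).2.1 (finf n f).2.2)
    (hd2 : ∀ P : F[X], P.Monic → Irreducible P → P ∉ S → ¬ P ^ 2 ∣ disc f.1 f.2.1 f.2.2)
    (h : (RatFunc F)[X])
    (T : Finset (Σ _ : ℕ, Matrix (Fin 3) (Fin 3) F[X]))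
    (hT : ∀ p ∈ T, p.1 ≤ n ∧ Bd n p.1 p.2 ∧ ia p.2 = f.1 ∧ ib p.2 = f.2.1 ∧ ic p.2 = f.2.2)
    (hR : ∀ p ∈ T, RepH (kf f).1 (kf f).2.1 (kf f).2.2 h (AA (RatFunc F))
      (p.2.map (algebraMap F[X] (RatFunc F)))) :
    ∑ p ∈ T, WS n p.1 S N p.2 / ((GG F p.1).ncard : ℝ) ≤ 1 := by
  rcases T.eq_empty_or_nonempty with he | ⟨p₁, hp₁⟩
  · rw [he, Finset.sum_empty]
    exact zero_le_one
  have hsym : ∀ p ∈ T, p.2ᵀ = p.2 := fun p hp => (hT p hp).2.1.1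
  -- the isometries
  have hiso : ∀ p ∈ T, ∃ g : Matrix (Fin 3) (Fin 3) (RatFunc F),
      gᵀ * AA (RatFunc F) * g = AA (RatFunc F) ∧ g.det = 1 ∧
      gᵀ * p₁.2.map (algebraMap F[X] (RatFunc F)) * g =
        p.2.map (algebraMap F[X] (RatFunc F)) := fun p hp =>
    iso_exists hBSH _ _ _ h _ _ (hR p hp) (hR p₁ hp₁)
  choose! g hg1 hg2 hg3 using hiso
  have hfin : ∀ v : Option {P // P ∈ S}, Finite (AdjoinRoot (pv S v)) := by
    rintro (_ | P)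
    · exact Nat.finite_of_card_ne_zero (card_pos X monic_X)
    · exact Nat.finite_of_card_ne_zero (card_pos P.1 (hS P.1 P.2).1)
  have hnt : ∀ v : Option {P // P ∈ S}, Nontrivial (AdjoinRoot (pv S v)) := by
    rintro (_ | P)
    · exact adj_nontrivial X irreducible_X
    · exact adj_nontrivial P.1 (hS P.1 P.2).2
  have hdB : ∀ p ∈ T, dB p.2 = disc f.1 f.2.1 f.2.2 := by
    intro p hp
    obtain ⟨-, -, h1, h3, h4⟩ := hT p hp
    unfold dB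
    rw [h1, h3, h4]
  have hloc : ∀ P : F[X], P.Monic → Irreducible P → P ∉ S → ∀ p ∈ T, MI (IP P) (g p) := by
    intro P hPm hP hPS p hp
    refine unq_P hCPP hUNQ hPOL h2 P hPm hP p₁.2 (hsym _ hp₁) ?_ (g p) (hg1 p hp) p.2 (hg3 p hp)
    rw [hdB _ hp₁]
    exact hd2 P hPm hP hPS
  -- the points
  let Pt : (Σ _ : ℕ, Matrix (Fin 3) (Fin 3) F[X]) → ∀ v : Option {P // P ∈ S},
    Finset ((Fin 3 → AdjoinRoot (pv S v)) × AdjoinRoot (pv S v)) := fun p v =>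
      (Set.toFinite (SmF ((Bv n S v p).map (AdjoinRoot.mk (pv S v))))).toFinset
  -- the data
  let D : ∀ v : Option {P // P ∈ S}, Set (Matrix (Fin 3) (Fin 3) (RatFunc F) ×
      ((Fin 3 → AdjoinRoot (pv S v)) × AdjoinRoot (pv S v))) := fun v =>
    (fun q : (Σ _ : ℕ, Matrix (Fin 3) (Fin 3) F[X]) ×
      ((Fin 3 → AdjoinRoot (pv S v)) × AdjoinRoot (pv S v)) =>
      (Gv S v q.1.1 (g q.1), q.2)) '' {q | q.1 ∈ T ∧ q.2 ∈ Pt q.1 v}
  have hDfin : ∀ v, (D v).Finite := by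
    intro v
    apply Set.Finite.image
    apply (T.finite_toSet.prod (Set.toFinite (Set.univ :
      Set ((Fin 3 → AdjoinRoot (pv S v)) × AdjoinRoot (pv S v))))).subset
    intro q hq
    exact ⟨hq.1, Set.mem_univ _⟩
  have hgd : ∀ p ∈ T, (g p).det ≠ 0 := fun p hp => by rw [hg2 p hp]; exact one_ne_zero
  have hlab : ∀ v : Option {P // P ∈ S}, ∃ M : ℕ, (M : ℝ) ≤ Iva n N S f v ∧
      ∃ lab : (Matrix (Fin 3) (Fin 3) (RatFunc F) ×
        ((Fin 3 → AdjoinRoot (pv S v)) × AdjoinRoot (pv S v))) → ℕ × AdjoinRoot (pv S v),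
      (∀ d ∈ D v, (lab d).1 < M ∧ (lab d).2 ≠ 0) ∧
      (∀ d ∈ D v, ∀ d' ∈ D v, lab d = lab d' → MI (Iv S v) (d.1⁻¹ * d'.1)) ∧
      (∀ d ∈ D v, ∀ d' ∈ D v, lab d = lab d' → d.1 = d'.1 → d = d') := by
    rintro (_ | P)
    · refine lab_inf hCPI hRII hLLG h2 n N hN f hfn hdi p₁.2 (hsym _ hp₁) (hT _ hp₁).2.2.1
        (hT _ hp₁).2.2.2.1 (hT _ hp₁).2.2.2.2 (D none) (hDfin none) ?_
      rintro d ⟨q, ⟨hq1, hq2⟩, rfl⟩
      simp only [Gv]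
      refine ⟨?_, ?_, q.1.1, q.1.2, (hT _ hq1).1, (hT _ hq1).2.1, ?_, ?_⟩
      · rw [Matrix.det_mul, hg2 _ hq1, Matrix.det_nonsing_inv, Dm_det]
        simp
      · rw [Matrix.transpose_mul]
        calc ((Dm q.1.1 : Matrix (Fin 3) (Fin 3) (RatFunc F))⁻¹)ᵀ * (g q.1)ᵀ * AA (RatFunc F) *
              (g q.1 * (Dm q.1.1)⁻¹) =
            ((Dm q.1.1 : Matrix (Fin 3) (Fin 3) (RatFunc F))⁻¹)ᵀ *
              ((g q.1)ᵀ * AA (RatFunc F) * g q.1) * (Dm q.1.1)⁻¹ := by simp only [mul_assoc]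
          _ = AA (RatFunc F) := by rw [hg1 _ hq1, Dm_inv_iso]
      · rw [Matrix.transpose_mul, Dm_tr, Matrix.mul_smul, Matrix.smul_mul]
        unfold Bi
        congr 1
        rw [← hg3 _ hq1]
        simp only [mul_assoc]
      · exact (Set.Finite.mem_toFinset _).1 hq2
    · refine lab_fin hCPP hRIP hLLG hPOL h2 P.1 (hS _ P.2).1 (hS _ P.2).2 N hN f (hdS _ P.2)
        p₁.2 (hsym _ hp₁) (hT _ hp₁).2.2.1
        (hT _ hp₁).2.2.2.1 (hT _ hp₁).2.2.2.2 (D (some P)) (hDfin (some P)) ?_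
      rintro d ⟨q, ⟨hq1, hq2⟩, rfl⟩
      refine ⟨hgd _ hq1, hg1 _ hq1, q.1.2, hg3 _ hq1, ?_⟩
      exact (Set.Finite.mem_toFinset _).1 hq2
  choose M hM lab hl0 hl1 hl2 using hlab
  let Ω : Finset (Σ _ : (Σ _ : ℕ, Matrix (Fin 3) (Fin 3) F[X]),
      ∀ v : Option {P // P ∈ S}, (Fin 3 → AdjoinRoot (pv S v)) × AdjoinRoot (pv S v)) :=
    T.sigma (fun p => Fintype.piFinset (Pt p))
  let Lab : (Σ _ : (Σ _ : ℕ, Matrix (Fin 3) (Fin 3) F[X]),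
      ∀ v : Option {P // P ∈ S}, (Fin 3 → AdjoinRoot (pv S v)) × AdjoinRoot (pv S v)) →
      (∀ v : Option {P // P ∈ S}, ℕ × AdjoinRoot (pv S v)) := fun ω v =>
    lab v (Gv S v ω.1.1 (g ω.1), ω.2 v)
  have hΩD : ∀ ω ∈ Ω, ∀ v, (Gv S v ω.1.1 (g ω.1), ω.2 v) ∈ D v := by
    intro ω hω v
    simp only [Ω, Finset.mem_sigma, Fintype.mem_piFinset] at hω
    exact ⟨(ω.1, ω.2 v), ⟨hω.1, hω.2 v⟩, rfl⟩
  let Λ : Finset (∀ v : Option {P // P ∈ S}, ℕ × AdjoinRoot (pv S v)) :=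
    Fintype.piFinset (fun v => Finset.range (M v) ×ˢ
      (Set.toFinite {c : AdjoinRoot (pv S v) | c ≠ 0}).toFinset)
  have hmaps : ∀ ω ∈ Ω, Lab ω ∈ Λ := by
    intro ω hω
    simp only [Λ, Fintype.mem_piFinset, Finset.mem_product, Finset.mem_range,
      Set.Finite.mem_toFinset, Set.mem_ofPred_eq]
    intro v
    exact hl0 v _ (hΩD ω hω v)
  have hcount : ∑ ω ∈ Ω, 1 / ((GG F ω.1.1).ncard : ℝ) ≤ Λ.card := by
    rw [← Finset.sum_fiberwise_of_maps_to hmaps, Finset.card_eq_sum_ones, Nat.cast_sum]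
    apply Finset.sum_le_sum
    intro ℓ hℓ
    rw [Nat.cast_one]
    refine fibre_le hPOL hMUQ hGRE h2 S p₁.2 T g hg1 hg2 hg3 hloc lab _ ?_ ?_ ?_ ?_
    · intro ω hω
      rw [Finset.mem_filter] at hω
      have := hω.1
      simp only [Ω, Finset.mem_sigma] at this
      exact this.1
    · intro v ω hω ω' hω'
      rw [Finset.mem_filter] at hω hω'
      have := hω.2.trans hω'.2.symm
      exact congrFun this v
    · intro v ω hω ω' hω' hl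
      rw [Finset.mem_filter] at hω hω'
      exact hl1 v _ (hΩD _ hω.1 v) _ (hΩD _ hω'.1 v) hl
    · intro v ω hω ω' hω' hl hG
      rw [Finset.mem_filter] at hω hω'
      have := hl2 v _ (hΩD _ hω.1 v) _ (hΩD _ hω'.1 v) hl hG
      exact congrArg Prod.snd this
  have hΩsum : ∑ ω ∈ Ω, 1 / ((GG F ω.1.1).ncard : ℝ) =
      ∑ p ∈ T, (∏ v, ((Pt p v).card : ℝ)) / ((GG F p.1).ncard : ℝ) := by
    simp only [Ω]
    rw [Finset.sum_sigma]
    apply Finset.sum_congr rfl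
    intro p hp
    dsimp only
    rw [Finset.sum_const, Fintype.card_piFinset, nsmul_eq_mul, mul_one_div, Nat.cast_prod]
  have hΛ : (Λ.card : ℝ) = ∏ v, ((M v : ℝ) * ((Nat.card (AdjoinRoot (pv S v)) : ℝ) - 1)) := by
    simp only [Λ]
    rw [Fintype.card_piFinset, Nat.cast_prod]
    apply Finset.prod_congr rfl
    intro v _
    rw [Finset.card_product, Finset.card_range, Nat.cast_mul]
    congr 1
    have h3 : (Set.toFinite {c : AdjoinRoot (pv S v) | c ≠ 0}).toFinset.card =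
        Nat.card (AdjoinRoot (pv S v)) - 1 := by
      rw [← Set.ncard_eq_toFinset_card]
      have h4 : {c : AdjoinRoot (pv S v) | c ≠ 0} = {(0 : AdjoinRoot (pv S v))}ᶜ := rfl
      rw [h4, Set.ncard_compl, Set.ncard_singleton]
    rw [h3, Nat.cast_sub (Nat.one_le_iff_ne_zero.2 (Nat.card_pos).ne'), Nat.cast_one]
  have hkpos : ∀ v : Option {P // P ∈ S}, (0 : ℝ) < (Nat.card (AdjoinRoot (pv S v)) : ℝ) - 1 := by
    intro v
    have : 1 < Nat.card (AdjoinRoot (pv S v)) := Finite.one_lt_card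
    have : (1 : ℝ) < Nat.card (AdjoinRoot (pv S v)) := by exact_mod_cast this
    linarith
  have hden : (0 : ℝ) < ∏ v, (((Nat.card (AdjoinRoot (pv S v)) : ℝ) - 1) * Iva n N S f v) :=
    Finset.prod_pos fun v _ => mul_pos (hkpos v) (Iva_pos n N S f v)
  have hW : ∀ p ∈ T, WS n p.1 S N p.2 / ((GG F p.1).ncard : ℝ) =
      ((∏ v, ((Pt p v).card : ℝ)) / ((GG F p.1).ncard : ℝ)) /
        ∏ v, (((Nat.card (AdjoinRoot (pv S v)) : ℝ) - 1) * Iva n N S f v) := by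
    intro p hp
    obtain ⟨h3, h4, h5, h6, h7⟩ := hT p hp
    have h8 : WS n p.1 S N p.2 = (∏ v, ((Pt p v).card : ℝ)) /
        ∏ v, (((Nat.card (AdjoinRoot (pv S v)) : ℝ) - 1) * Iva n N S f v) := by
      rw [WS_eq, ← Finset.prod_div_distrib]
      apply Finset.prod_congr rfl
      intro v _
      rw [wt_eq hBIN n N S f ⟨p.1, p.2⟩ h3 h4 h5 h6 h7]
      congr 2
      simp only [Pt]
      exact Set.ncard_eq_toFinset_card _ _
    rw [h8]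
    ring
  rw [Finset.sum_congr rfl hW, ← Finset.sum_div, div_le_one hden, ← hΩsum]
  refine hcount.trans ?_
  rw [hΛ]
  apply Finset.prod_le_prod
  · intro v _
    exact mul_nonneg (Nat.cast_nonneg _) (hkpos v).le
  · intro v _
    rw [mul_comm]
    exact mul_le_mul_of_nonneg_left (hM v) (hkpos v).le

end

end Pool.AVS.WLL
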